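import Mathlib
set_option autoImplicit false

/-! XOR-Ising loops on the triangular lattice: the objects.

The triangular lattice has vertex set ℤ × ℤ, the point (i, j) standing for i e₁ + j e₂ with e₁ = (1, 0) and
e₂ = (1/2, √3/2); its vertices are the faces of the honeycomb lattice, its edges are in bijection with the (dual)
honeycomb edges, its triangles with the honeycomb vertices. -/

namespace XorIsing
open scoped Classical
open Finset

noncomputable section

/-- vertices of the triangular lattice = faces of the honeycomb lattice -/
abbrev V := ℤ × ℤ

/-- the three edge directions e₁, e₂, e₁ - e₂ -/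
def dir : Fin 3 → V := ![(1, 0), (0, 1), (1, -1)]

/-- the edge (v, k) joins v and v + dir k; every edge of the triangular lattice occurs exactly once; the same pair
also stands for the dual honeycomb edge, which separates the two faces v and v + dir k -/
abbrev Edge := V × Fin 3

/-- the second endpoint of an edge (the first one is e.1) -/
def tip (e : Edge) : V := e.1 + dir e.2

/-- adjacency in the triangular lattice -/
def Adj (u v : V) : Prop := ∃ k, v = u + dir k ∨ u = v + dir k

/-- the edges of a triangle = the three honeycomb edges at a honeycomb vertex: (v, true) is the triangle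
v, v + e₁, v + e₂ and (v, false) is the triangle v + e₁, v + e₂, v + e₁ + e₂ -/
def tri (t : V × Bool) : Finset Edge :=
  if t.2 then {(t.1, 0), (t.1, 1), (t.1 + (0, 1), 2)}
  else {(t.1 + (0, 1), 2), (t.1 + (0, 1), 0), (t.1 + (1, 0), 1)}

/-- the edges with at least one endpoint in D -/
def near (D : Finset V) : Finset Edge :=
  univ.biUnion (fun k : Fin 3 => D.image (fun v => (v, k)) ∪ D.image (fun v => (v - dir k, k)))

/-- a spin configuration is given by the finite set M of its minus spins; all other spins are +1 -/
def spin (M : Finset V) (v : V) : ℝ := if v ∈ M then -1 else 1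

/-- Ising weight of M in D with + boundary conditions (M is a subset of D, so all spins outside D are +1), β is the
inverse temperature times the coupling constant, every edge with an endpoint in D contributes -/
def wt (β : ℝ) (D M : Finset V) : ℝ := Real.exp (β * ∑ e ∈ near D, spin M e.1 * spin M (tip e))

/-- partition function with + boundary conditions -/
def ZZ (β : ℝ) (D : Finset V) : ℝ := ∑ M ∈ D.powerset, wt β D M

/-- Ising correlation with + boundary conditions: the expectation of the product of the spins of A -/
def corr (β : ℝ) (D A : Finset V) : ℝ := (∑ M ∈ D.powerset, wt β D M * ∏ a ∈ A, spin M a) / ZZ β D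

/-- probability of an event for the XOR-Ising model τ = σ σ' in D, where σ, σ' are independent Ising configurations with +
boundary conditions and minus sets M, M'; the minus set of τ is the symmetric difference X of M and M', and the event is
an event of X -/
def xorP (β : ℝ) (D : Finset V) (ev : Finset V → Prop) : ℝ :=
  (∑ M ∈ D.powerset, ∑ M' ∈ D.powerset, wt β D M * wt β D M' * (if ev (symmDiff M M') then 1 else 0)) / ZZ β D ^ 2

/-- the contour edges of the configuration with minus set X: the honeycomb edges separating different values -/
def contour (X : Finset V) : Finset Edge := (near X).filter (fun e => ¬ (e.1 ∈ X ↔ tip e ∈ X))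

/-- two honeycomb edges share a honeycomb vertex -/
def Touch (e f : Edge) : Prop := ∃ t, e ∈ tri t ∧ f ∈ tri t

/-- the loop through a contour edge e: the connected component of e in the contour (every honeycomb vertex is on 0 or 2
contour edges, so the components are simple closed paths of honeycomb edges) -/
def loopOf (X : Finset V) (e : Edge) : Finset Edge :=
  (contour X).filter (fun f => Relation.ReflTransGen (fun a b => b ∈ contour X ∧ Touch a b) e f)

/-- the loops of the configuration with minus set X -/
def loops (X : Finset V) : Finset (Finset Edge) := (contour X).image (loopOf X)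

/-- the edges of L crossed by the horizontal ray from the centre of the face x in direction e₁ (this ray passes through the
centres of the faces x, x + e₁, x + 2 e₁, ...) -/
def ray (L : Finset Edge) (x : V) : Finset Edge := L.filter (fun e => e.2 = 0 ∧ e.1.2 = x.2 ∧ x.1 ≤ e.1.1)

/-- the loop L surrounds the face x: the ray from x crosses L an odd number of times -/
def Surrounds (L : Finset Edge) (x : V) : Prop := Odd (ray L x).card

/-- the number of loops surrounding the face x -/
def nloops (X : Finset V) (x : V) : ℕ := ((loops X).filter (fun L => Surrounds L x)).card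

/-- the complement of D is connected -/
def CoConn (D : Finset V) : Prop :=
  ∀ u v : V, u ∉ D → v ∉ D → Relation.ReflTransGen (fun a b => b ∉ D ∧ Adj a b) u v

/-- the lattice triangle with corner a and side n: a, a + n e₁, a + n e₂ -/
def InTri (a : V) (n : ℕ) (v : V) : Prop := a.1 ≤ v.1 ∧ a.2 ≤ v.2 ∧ v.1 + v.2 ≤ a.1 + a.2 + n

/-- K is connected in the triangular lattice -/
def Conn (K : Finset V) : Prop := ∀ u ∈ K, ∀ v ∈ K, Relation.ReflTransGen (fun x y => y ∈ K ∧ Adj x y) u v

/-- K is a connected set of faces in the triangle, touching its three sides -/
def Spans (a : V) (n : ℕ) (K : Finset V) : Prop :=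
  (∀ v ∈ K, InTri a n v) ∧ Conn K ∧ (∃ v ∈ K, v.2 = a.2) ∧ (∃ v ∈ K, v.1 = a.1) ∧
    (∃ v ∈ K, v.1 + v.2 = a.1 + a.2 + n)

/-- u and v are joined by a path of edges of ω -/
def FConn (ω : Finset Edge) (u v : V) : Prop :=
  Relation.ReflTransGen (fun x y => ∃ k, ((x, k) ∈ ω ∧ y = x + dir k) ∨ ((y, k) ∈ ω ∧ x = y + dir k)) u v

/-- the clusters of ω contained in D, that is, not connected to the outside of D -/
def fclusters (D : Finset V) (ω : Finset Edge) : Finset (Finset V) :=
  (D.filter (fun v => ∀ w, FConn ω v w → w ∈ D)).image (fun v => D.filter (fun u => FConn ω v u))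

/-- weight of the set ω of open edges in the random-cluster model on D with q = 2, p = 1 - exp(-2 β) and wired boundary
(all vertices outside D count as one cluster, so only the clusters contained in D get a factor 2, up to a constant) -/
def fkw (β : ℝ) (D : Finset V) (ω : Finset Edge) : ℝ :=
  (1 - Real.exp (-2 * β)) ^ ω.card * Real.exp (-2 * β) ^ ((near D).card - ω.card) * 2 ^ (fclusters D ω).card

/-- probability in the wired random-cluster model -/
def fkP (β : ℝ) (D : Finset V) (ev : Finset Edge → Prop) : ℝ :=
  (∑ ω ∈ (near D).powerset, fkw β D ω * (if ev ω then 1 else 0)) / ∑ ω ∈ (near D).powerset, fkw β D ω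

/-- no two of the triangles (a i, n i) and of the outside of D are connected in ω -/
def Sep (D : Finset V) {k : ℕ} (a : Fin k → V) (n : Fin k → ℕ) (ω : Finset Edge) : Prop :=
  (∀ i v, InTri (a i) (n i) v → ∀ w, FConn ω v w → w ∈ D) ∧
    ∀ i j, i ≠ j → ∀ v w, InTri (a i) (n i) v → InTri (a j) (n j) w → ¬ FConn ω v w

/-- every triangle (a i, n i) contains a connected set of faces touching its three sides, such that every loop surrounds
all or none of its faces, and the number of loops surrounding it is odd for i in s, even for i not in s -/
def Pat {k : ℕ} (a : Fin k → V) (n : Fin k → ℕ) (s : Finset (Fin k)) (X : Finset V) : Prop :=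
  ∀ i, ∃ K, Spans (a i) (n i) K ∧ (∀ L ∈ loops X, (∀ v ∈ K, Surrounds L v) ∨ (∀ v ∈ K, ¬ Surrounds L v)) ∧
    ∀ v ∈ K, (Odd (nloops X v) ↔ i ∈ s)

end

end XorIsing
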