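import Pool.Agent.Work.MP_bda6fa_XOR.Defs
set_option autoImplicit false

/-! XOR-Ising loops: expectations and lengths. -/

namespace XorIsing
open scoped Classical
open Finset

noncomputable section

/-- expectation of a function of the minus set X of τ = σ σ' in the XOR-Ising model (see xorP) -/
def xorE (β : ℝ) (D : Finset V) (f : Finset V → ℝ) : ℝ :=
  (∑ M ∈ D.powerset, ∑ M' ∈ D.powerset, wt β D M * wt β D M' * f (symmDiff M M')) / ZZ β D ^ 2

/-- L surrounds an odd number of faces of A -/
def OddFor (A : Finset V) (L : Finset Edge) : Prop := Odd (A.filter (fun a => Surrounds L a)).card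

/-- the length (number of honeycomb edges) of L if L is the only loop surrounding an odd number of faces of A, summed over
the loops: the length of that loop if there is exactly one, otherwise 0 -/
def uniqueLen (A : Finset V) (X : Finset V) : ℝ :=
  ∑ L ∈ loops X, if OddFor A L ∧ ∀ L' ∈ loops X, OddFor A L' → L' = L then (L.card : ℝ) else 0

end

end XorIsing
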