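import Pool.Agent.Work.MP_bda6fa_XOR.Topo
set_option autoImplicit false

/-! Flipping both spins inside one XOR loop. -/

namespace XorIsing
open scoped Classical
open Finset

theorem spin_sq (M : Finset V) (v : V) : spin M v * spin M v = 1 := by
  unfold spin
  split_ifs <;> norm_num

theorem spin_cases (M : Finset V) (v : V) : spin M v = 1 ∨ spin M v = -1 := by
  unfold spin
  split_ifs
  · right; rfl
  · left; rfl

theorem spin_symmDiff (M I : Finset V) (v : V) : spin (symmDiff M I) v = spin M v * spin I v := by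
  unfold spin
  rw [if_congr (mem_symmDiff (a := v) (s := M) (t := I)) rfl rfl]
  by_cases h1 : v ∈ M <;> by_cases h2 : v ∈ I <;> simp [h1, h2]

/-- the faces of D surrounded by L -/
noncomputable def inside (D : Finset V) (L : Finset Edge) : Finset V := D.filter (fun v => Surrounds L v)

theorem mem_inside {D X : Finset V} (hD : CoConn D) (hX : X ⊆ D) {L : Finset Edge} (hL : L ∈ loops X) (v : V) :
    v ∈ inside D L ↔ Surrounds L v := by
  rw [inside, mem_filter]
  constructor
  · exact fun h => h.2
  · intro h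
    refine ⟨?_, h⟩
    by_contra hv
    exact not_surrounds_out hD hX hL hv h

theorem symmDiff_sub {D M I : Finset V} (h1 : M ⊆ D) (h2 : I ⊆ D) : symmDiff M I ⊆ D := by
  intro v hv
  rw [mem_symmDiff] at hv
  rcases hv with hv | hv
  · exact h1 hv.1
  · exact h2 hv.1

theorem sd_cancel (M M' I : Finset V) : symmDiff (symmDiff M I) (symmDiff M' I) = symmDiff M M' := by
  ext v
  simp only [mem_symmDiff]
  tauto

/-- the weight of a pair does not change when both spins are flipped inside an XOR loop -/
theorem wt_flip {β : ℝ} {D : Finset V} (hD : CoConn D) {M M' : Finset V} (hM : M ⊆ D) (hM' : M' ⊆ D)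
    {L : Finset Edge} (hL : L ∈ loops (symmDiff M M')) :
    wt β D (symmDiff M (inside D L)) * wt β D (symmDiff M' (inside D L)) = wt β D M * wt β D M' := by
  unfold wt
  rw [← Real.exp_add, ← Real.exp_add, ← mul_add, ← mul_add, ← sum_add_distrib, ← sum_add_distrib]
  congr 2
  apply sum_congr rfl
  intro e _
  set I := inside D L with hI
  have hX : symmDiff M M' ⊆ D := symmDiff_sub hM hM'
  have hin := mem_inside hD hX hL
  rw [spin_symmDiff, spin_symmDiff, spin_symmDiff, spin_symmDiff]
  by_cases he : e ∈ L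
  · have h1 := mem_contour.1 (loop_sub hL he)
    have h2 : spin (symmDiff M M') e.1 * spin (symmDiff M M') (tip e) = -1 := by
      unfold spin
      by_cases h3 : e.1 ∈ symmDiff M M' <;> by_cases h4 : tip e ∈ symmDiff M M' <;> simp [h3, h4] <;> tauto
    rw [spin_symmDiff, spin_symmDiff] at h2
    have h5 : spin M e.1 * spin M (tip e) + spin M' e.1 * spin M' (tip e) = 0 := by
      rcases spin_cases M e.1 with a1 | a1 <;> rcases spin_cases M (tip e) with a2 | a2 <;>
        rcases spin_cases M' e.1 with a3 | a3 <;> rcases spin_cases M' (tip e) with a4 | a4 <;>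
        rw [a1, a2, a3, a4] at h2 ⊢ <;> first | (norm_num; done) | (exfalso; norm_num at h2)
    linear_combination (spin I e.1 * spin I (tip e) - 1) * h5
  · have h1 : spin I e.1 = spin I (tip e) := by
      unfold spin
      refine if_congr ?_ rfl rfl
      rw [hin, hin]
      exact (loop_step hL e).2 he
    have h2 := spin_sq I (tip e)
    rw [h1]
    linear_combination (spin M e.1 * spin M (tip e) + spin M' e.1 * spin M' (tip e)) * h2

theorem prod_spin_symmDiff (A M I : Finset V) :
    ∏ a ∈ A, spin (symmDiff M I) a = (∏ a ∈ A, spin M a) * (-1) ^ (A.filter (fun a => a ∈ I)).card := by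
  have h1 : ∀ a ∈ A, spin (symmDiff M I) a = spin M a * spin I a := fun a _ => spin_symmDiff M I a
  rw [prod_congr rfl h1, prod_mul_distrib]
  congr 1
  unfold spin
  rw [prod_ite]
  simp

/-- the expectation of σ_A g(τ) vanishes on the event that some XOR loop surrounds an odd number of points of A -/
theorem sum_bad {β : ℝ} {D : Finset V} (hD : CoConn D) (A : Finset V) (g : Finset V → ℝ)
    (hg : ∀ X, g X ≠ 0 → ∃ L ∈ loops X, Odd (A.filter (fun a => Surrounds L a)).card) :
    ∑ p ∈ D.powerset ×ˢ D.powerset, wt β D p.1 * wt β D p.2 * (g (symmDiff p.1 p.2) * ∏ a ∈ A, spin p.1 a) = 0 := by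
  have hch : ∀ X : Finset V, ∃ L : Finset Edge, g X ≠ 0 → L ∈ loops X ∧
      Odd (A.filter (fun a => Surrounds L a)).card := by
    intro X
    by_cases h : g X ≠ 0
    · obtain ⟨L, h1, h2⟩ := hg X h
      exact ⟨L, fun _ => ⟨h1, h2⟩⟩
    · exact ⟨∅, fun h' => absurd h' h⟩
  choose Lo hLo using hch
  have hpar : ∀ M M' : Finset V, M ⊆ D → M' ⊆ D → g (symmDiff M M') ≠ 0 →
      ∏ a ∈ A, spin (symmDiff M (inside D (Lo (symmDiff M M')))) a = - ∏ a ∈ A, spin M a := by
    intro M M' hM hM' hne
    obtain ⟨h1, h2⟩ := hLo _ hne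
    rw [prod_spin_symmDiff]
    have h3 : (A.filter (fun a => a ∈ inside D (Lo (symmDiff M M')))) =
        A.filter (fun a => Surrounds (Lo (symmDiff M M')) a) := by
      apply filter_congr
      intro a _
      exact mem_inside hD (symmDiff_sub hM hM') h1 a
    rw [h3, h2.neg_one_pow]
    ring
  refine sum_involution (fun p _ => (symmDiff p.1 (inside D (Lo (symmDiff p.1 p.2))),
    symmDiff p.2 (inside D (Lo (symmDiff p.1 p.2))))) ?_ ?_ ?_ ?_
  · rintro ⟨M, M'⟩ hp
    obtain ⟨hM, hM'⟩ := mem_product.1 hp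
    rw [mem_powerset] at hM hM'
    show wt β D M * wt β D M' * (g (symmDiff M M') * ∏ a ∈ A, spin M a) +
      wt β D (symmDiff M (inside D (Lo (symmDiff M M')))) * wt β D (symmDiff M' (inside D (Lo (symmDiff M M')))) *
      (g (symmDiff (symmDiff M (inside D (Lo (symmDiff M M')))) (symmDiff M' (inside D (Lo (symmDiff M M'))))) *
        ∏ a ∈ A, spin (symmDiff M (inside D (Lo (symmDiff M M')))) a) = 0
    rw [sd_cancel]
    by_cases hne : g (symmDiff M M') = 0
    · rw [hne]
      ring
    · rw [wt_flip hD hM hM' (hLo _ hne).1, hpar M M' hM hM' hne]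
      ring
  · rintro ⟨M, M'⟩ hp hne hcon
    obtain ⟨hM, hM'⟩ := mem_product.1 hp
    rw [mem_powerset] at hM hM'
    have h1 : symmDiff M (inside D (Lo (symmDiff M M'))) = M := (Prod.mk.inj hcon).1
    have hg0 : g (symmDiff M M') ≠ 0 := by
      intro h0
      apply hne
      show wt β D M * wt β D M' * (g (symmDiff M M') * ∏ a ∈ A, spin M a) = 0
      rw [h0]
      ring
    have h2 := hpar M M' hM hM' hg0
    rw [h1] at h2
    apply hne
    show wt β D M * wt β D M' * (g (symmDiff M M') * ∏ a ∈ A, spin M a) = 0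
    have h3 : ∏ a ∈ A, spin M a = 0 := by linarith
    rw [h3]
    ring
  · rintro ⟨M, M'⟩ hp
    obtain ⟨hM, hM'⟩ := mem_product.1 hp
    rw [mem_powerset] at hM hM'
    exact mem_product.2 ⟨mem_powerset.2 (symmDiff_sub hM (filter_subset _ _)),
      mem_powerset.2 (symmDiff_sub hM' (filter_subset _ _))⟩
  · rintro ⟨M, M'⟩ hp
    show (symmDiff (symmDiff M (inside D (Lo (symmDiff M M')))) (inside D (Lo (symmDiff
      (symmDiff M (inside D (Lo (symmDiff M M')))) (symmDiff M' (inside D (Lo (symmDiff M M'))))))),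
      symmDiff (symmDiff M' (inside D (Lo (symmDiff M M')))) (inside D (Lo (symmDiff
      (symmDiff M (inside D (Lo (symmDiff M M')))) (symmDiff M' (inside D (Lo (symmDiff M M')))))))) = (M, M')
    rw [sd_cancel]
    simp

theorem wt_pos (β : ℝ) (D M : Finset V) : 0 < wt β D M := Real.exp_pos _

theorem ZZ_pos (β : ℝ) (D : Finset V) : 0 < ZZ β D :=
  sum_pos (fun M _ => wt_pos β D M) ⟨∅, empty_mem_powerset D⟩

/-- sign of a set of points: product of the signs t_a, t_a = -1 exactly for a in P -/
noncomputable def sgn (P B : Finset V) : ℝ := (-1) ^ (B ∩ P).card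

theorem sgn_eq (P B : Finset V) : sgn P B = ∏ b ∈ B, spin P b := by
  unfold sgn spin
  rw [prod_ite]
  simp only [prod_const, one_pow, mul_one]
  congr 1

/-- the event that every loop surrounds an even number of points of A, with prescribed parities -/
def EvA (A P X : Finset V) : Prop :=
  (∀ L ∈ loops X, Even (A.filter (fun a => Surrounds L a)).card) ∧ ∀ a ∈ A, (Odd (nloops X a) ↔ a ∈ P)

theorem partA (β : ℝ) {D : Finset V} (hD : CoConn D) (A P : Finset V) :
    (1 / 2) ^ A.card * ∑ B ∈ A.powerset, (-1) ^ (B ∩ P).card * (corr β D (A \ B) * corr β D B) ≤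
      xorP β D (EvA A P) := by
  set S : ℝ := ∑ p ∈ D.powerset ×ˢ D.powerset, wt β D p.1 * wt β D p.2 *
    ((∏ a ∈ A, (1 + spin P a * spin (symmDiff p.1 p.2) a)) * ∏ a ∈ A, spin p.1 a) with hS
  -- expansion
  have h1 : S = ∑ B ∈ A.powerset, sgn P B * ((∑ M ∈ D.powerset, wt β D M * ∏ a ∈ A \ B, spin M a) *
      ∑ M ∈ D.powerset, wt β D M * ∏ a ∈ B, spin M a) := by
    have h2 : ∀ p ∈ D.powerset ×ˢ D.powerset, wt β D p.1 * wt β D p.2 *
        ((∏ a ∈ A, (1 + spin P a * spin (symmDiff p.1 p.2) a)) * ∏ a ∈ A, spin p.1 a) =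
        ∑ B ∈ A.powerset, sgn P B * ((wt β D p.1 * ∏ a ∈ A \ B, spin p.1 a) *
          (wt β D p.2 * ∏ a ∈ B, spin p.2 a)) := by
      intro p _
      rw [Finset.prod_one_add, Finset.sum_mul, Finset.mul_sum]
      apply sum_congr rfl
      intro B hB
      rw [mem_powerset] at hB
      rw [prod_mul_distrib, ← sgn_eq]
      have h3 : ∏ a ∈ A, spin p.1 a = (∏ a ∈ A \ B, spin p.1 a) * ∏ a ∈ B, spin p.1 a :=
        (prod_sdiff hB).symm
      have h4 : (∏ a ∈ B, spin (symmDiff p.1 p.2) a) * ∏ a ∈ B, spin p.1 a = ∏ a ∈ B, spin p.2 a := by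
        rw [← prod_mul_distrib]
        apply prod_congr rfl
        intro a _
        rw [spin_symmDiff]
        linear_combination spin p.2 a * spin_sq p.1 a
      rw [h3]
      linear_combination (wt β D p.1 * wt β D p.2 * sgn P B * ∏ a ∈ A \ B, spin p.1 a) * h4
    rw [hS, sum_congr rfl h2, sum_comm]
    apply sum_congr rfl
    intro B _
    rw [← mul_sum]
    congr 1
    rw [sum_product, sum_mul_sum]
  -- the bad part vanishes
  have h5 : S = ∑ p ∈ D.powerset ×ˢ D.powerset, wt β D p.1 * wt β D p.2 *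
      ((if EvA A P (symmDiff p.1 p.2) then 2 ^ A.card else 0) * ∏ a ∈ A, spin p.1 a) := by
    have h6 := sum_bad (β := β) hD A (fun X => if (∀ L ∈ loops X, Even (A.filter (fun a => Surrounds L a)).card)
      then 0 else ∏ a ∈ A, (1 + spin P a * spin X a)) (by
        intro X hX
        by_contra hcon
        push Not at hcon
        apply hX
        rw [if_pos]
        intro L hL
        exact Nat.not_odd_iff_even.1 (hcon L hL))
    have h7 : S = S - ∑ p ∈ D.powerset ×ˢ D.powerset, wt β D p.1 * wt β D p.2 *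
        ((if ∀ L ∈ loops (symmDiff p.1 p.2), Even (A.filter (fun a => Surrounds L a)).card then 0
          else ∏ a ∈ A, (1 + spin P a * spin (symmDiff p.1 p.2) a)) * ∏ a ∈ A, spin p.1 a) := by
      rw [h6]
      ring
    rw [h7, hS, ← sum_sub_distrib]
    apply sum_congr rfl
    intro p _
    have h8 : (∏ a ∈ A, (1 + spin P a * spin (symmDiff p.1 p.2) a)) =
        if (∀ a ∈ A, (Odd (nloops (symmDiff p.1 p.2) a) ↔ a ∈ P)) then 2 ^ A.card else 0 := by
      by_cases h : ∀ a ∈ A, (Odd (nloops (symmDiff p.1 p.2) a) ↔ a ∈ P)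
      · rw [if_pos h]
        rw [← prod_const]
        apply prod_congr rfl
        intro a ha
        have h9 := h a ha
        rw [nloops_odd] at h9
        have : spin (symmDiff p.1 p.2) a = spin P a := by
          unfold spin
          exact if_congr h9 rfl rfl
        rw [this, spin_sq]
        norm_num
      · rw [if_neg h]
        push Not at h
        obtain ⟨a, ha, h9⟩ := h
        rw [nloops_odd] at h9
        refine prod_eq_zero ha ?_
        unfold spin
        by_cases h10 : a ∈ P
        · have h11 : a ∉ symmDiff p.1 p.2 := by tauto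
          rw [if_pos h10, if_neg h11]
          norm_num
        · have h11 : a ∈ symmDiff p.1 p.2 := by tauto
          rw [if_neg h10, if_pos h11]
          norm_num
    simp only [h8]
    unfold EvA
    by_cases a1 : ∀ L ∈ loops (symmDiff p.1 p.2), Even (A.filter (fun a => Surrounds L a)).card
    · by_cases a2 : ∀ a ∈ A, (Odd (nloops (symmDiff p.1 p.2) a) ↔ a ∈ P)
      · rw [if_pos a1, if_pos a2, if_pos ⟨a1, a2⟩]
        ring
      · rw [if_pos a1, if_neg a2, if_neg (fun h => a2 h.2)]
        ring
    · rw [if_neg a1, if_neg (fun h : (_ ∧ _) => a1 h.1)]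
      ring
  -- conclusion
  have h9 : S ≤ ∑ p ∈ D.powerset ×ˢ D.powerset, wt β D p.1 * wt β D p.2 *
      (if EvA A P (symmDiff p.1 p.2) then 2 ^ A.card else 0) := by
    rw [h5]
    apply sum_le_sum
    intro p _
    apply mul_le_mul_of_nonneg_left _ (mul_nonneg (wt_pos _ _ _).le (wt_pos _ _ _).le)
    have h10 : ∏ a ∈ A, spin p.1 a ≤ 1 := by
      have h11 : |∏ a ∈ A, spin p.1 a| = 1 := by
        rw [abs_prod]
        apply prod_eq_one
        intro a _
        rcases spin_cases p.1 a with h | h <;> rw [h] <;> norm_num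
      calc ∏ a ∈ A, spin p.1 a ≤ |∏ a ∈ A, spin p.1 a| := le_abs_self _
        _ = 1 := h11
    split_ifs
    · have : (0 : ℝ) ≤ 2 ^ A.card := by positivity
      nlinarith
    · simp
  have hZ := ZZ_pos β D
  have h12 : xorP β D (EvA A P) = (1 / 2) ^ A.card * (∑ p ∈ D.powerset ×ˢ D.powerset, wt β D p.1 * wt β D p.2 *
      (if EvA A P (symmDiff p.1 p.2) then 2 ^ A.card else 0)) / ZZ β D ^ 2 := by
    unfold xorP
    congr 1
    rw [sum_product, mul_sum]
    apply sum_congr rfl
    intro M _
    rw [mul_sum]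
    apply sum_congr rfl
    intro M' _
    have h13 : (1 / 2 : ℝ) ^ A.card * 2 ^ A.card = 1 := by
      rw [← mul_pow]
      norm_num
    split_ifs
    · linear_combination - (wt β D M * wt β D M') * h13
    · ring
  have h14 : (1 / 2 : ℝ) ^ A.card * ∑ B ∈ A.powerset, (-1) ^ (B ∩ P).card * (corr β D (A \ B) * corr β D B) =
      (1 / 2) ^ A.card * S / ZZ β D ^ 2 := by
    rw [h1, mul_div_assoc]
    congr 1
    rw [sum_div]
    apply sum_congr rfl
    intro B _
    unfold corr sgn
    field_simp
  rw [h12, h14]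
  apply div_le_div_of_nonneg_right _ (by positivity)
  exact mul_le_mul_of_nonneg_left h9 (by positivity)

/-- every loop surrounds an even number of points of A: at least the correlation of A -/
theorem partA_sum (β : ℝ) {D : Finset V} (hD : CoConn D) (A : Finset V) :
    corr β D A ≤ xorP β D (fun X => ∀ L ∈ loops X, Even (A.filter (fun a => Surrounds L a)).card) := by
  have hZ := ZZ_pos β D
  have h1 : corr β D A = (∑ p ∈ D.powerset ×ˢ D.powerset, wt β D p.1 * wt β D p.2 * ∏ a ∈ A, spin p.1 a) /
      ZZ β D ^ 2 := by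
    have h2 : ∑ p ∈ D.powerset ×ˢ D.powerset, wt β D p.1 * wt β D p.2 * ∏ a ∈ A, spin p.1 a =
        (∑ M ∈ D.powerset, wt β D M * ∏ a ∈ A, spin M a) * ZZ β D := by
      unfold ZZ
      rw [sum_mul_sum, sum_product]
      apply sum_congr rfl
      intro M _
      apply sum_congr rfl
      intro M' _
      ring
    rw [h2, corr]
    field_simp
  have h3 := sum_bad (β := β) hD A (fun X => if (∀ L ∈ loops X, Even (A.filter (fun a => Surrounds L a)).card)
      then 0 else 1) (by
        intro X hX
        by_contra hcon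
        push Not at hcon
        apply hX
        rw [if_pos]
        intro L hL
        exact Nat.not_odd_iff_even.1 (hcon L hL))
  rw [h1]
  unfold xorP
  apply div_le_div_of_nonneg_right _ (by positivity)
  have h6 : ∑ p ∈ D.powerset ×ˢ D.powerset, wt β D p.1 * wt β D p.2 * ∏ a ∈ A, spin p.1 a =
      ∑ p ∈ D.powerset ×ˢ D.powerset, wt β D p.1 * wt β D p.2 * ∏ a ∈ A, spin p.1 a -
      ∑ p ∈ D.powerset ×ˢ D.powerset, wt β D p.1 * wt β D p.2 *
        ((if ∀ L ∈ loops (symmDiff p.1 p.2), Even (A.filter (fun a => Surrounds L a)).card then 0 else 1) *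
          ∏ a ∈ A, spin p.1 a) := by
    rw [h3, sub_zero]
  rw [h6, ← sum_sub_distrib, ← sum_product']
  apply sum_le_sum
  intro p _
  have h4 : ∏ a ∈ A, spin p.1 a ≤ 1 := by
    have h11 : |∏ a ∈ A, spin p.1 a| = 1 := by
      rw [abs_prod]
      apply prod_eq_one
      intro a _
      rcases spin_cases p.1 a with h | h <;> rw [h] <;> norm_num
    calc ∏ a ∈ A, spin p.1 a ≤ |∏ a ∈ A, spin p.1 a| := le_abs_self _
      _ = 1 := h11
  have h5 : 0 < wt β D p.1 * wt β D p.2 := mul_pos (wt_pos _ _ _) (wt_pos _ _ _)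
  by_cases h : ∀ L ∈ loops (symmDiff p.1 p.2), Even (A.filter (fun a => Surrounds L a)).card
  · simp only [if_pos h]
    nlinarith
  · simp only [if_neg h]
    simp

end XorIsing
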