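import Pool.Agent.Work.MP_bda6fa_XOR.Topo
set_option autoImplicit false

/-! Sperner's lemma on a lattice triangle and the lemma behind the game of Y. -/

namespace XorIsing
open scoped Classical
open Finset

/-- mod 2 indicator of an edge with labels 0 and 1 -/
def gg (a b : Fin 3) : ZMod 2 := if (a = 0 ∧ b = 1) ∨ (a = 1 ∧ b = 0) then 1 else 0

theorem gg_tri : ∀ a b c : Fin 3, ¬ (a ≠ b ∧ b ≠ c ∧ a ≠ c) → gg a b + gg b c + gg a c = 0 := by
  decide

def vv (a : Fin 3) : ZMod 2 := if a = 1 then 1 else 0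

theorem gg_side : ∀ a b : Fin 3, a ≠ 2 → b ≠ 2 → gg a b = vv b + vv a := by decide
theorem gg_side0 : ∀ a b : Fin 3, a ≠ 0 → b ≠ 0 → gg a b = 0 := by decide
theorem gg_side1 : ∀ a b : Fin 3, a ≠ 1 → b ≠ 1 → gg a b = 0 := by decide

theorem tel2 (f : ℕ → ZMod 2) (n : ℕ) : ∑ j ∈ range n, (f j + f (j + 1)) = f 0 + f n := by
  induction n with
  | zero => simp; exact (z2 (f 0)).symm
  | succ n ih =>
    rw [sum_range_succ, ih]
    linear_combination z2 (f n)

/-- Sperner -/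
theorem sperner (n : ℕ) (lab : ℕ → ℕ → Fin 3) (h0 : ∀ i, i ≤ n → lab i 0 ≠ 0) (h1 : ∀ j, j ≤ n → lab 0 j ≠ 1)
    (h2 : ∀ i j, i + j = n → lab i j ≠ 2) :
    (∃ i j, i + j + 1 ≤ n ∧ lab i j ≠ lab (i + 1) j ∧ lab (i + 1) j ≠ lab i (j + 1) ∧ lab i j ≠ lab i (j + 1)) ∨
    (∃ i j, i + j + 2 ≤ n ∧ lab (i + 1) j ≠ lab i (j + 1) ∧ lab i (j + 1) ≠ lab (i + 1) (j + 1) ∧
      lab (i + 1) j ≠ lab (i + 1) (j + 1)) := by
  by_contra hcon
  rw [not_or] at hcon
  obtain ⟨hup, hdn⟩ := hcon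
  set h : ℕ → ℕ → ZMod 2 := fun i j => gg (lab i j) (lab (i + 1) j) with hh
  set v : ℕ → ℕ → ZMod 2 := fun i j => gg (lab i j) (lab i (j + 1)) with hv
  set d : ℕ → ℕ → ZMod 2 := fun i j => gg (lab (i + 1) j) (lab i (j + 1)) with hd
  have up : ∀ i j, i + j + 1 ≤ n → h i j + v i j + d i j = 0 := by
    intro i j hij
    have := gg_tri (lab i j) (lab (i + 1) j) (lab i (j + 1)) (fun hc => hup ⟨i, j, hij, hc.1, hc.2.1, hc.2.2⟩)
    show gg _ _ + gg _ _ + gg _ _ = 0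
    linear_combination this
  have dn : ∀ i j, i + j + 2 ≤ n → d i j + h i (j + 1) + v (i + 1) j = 0 := by
    intro i j hij
    have := gg_tri (lab (i + 1) j) (lab i (j + 1)) (lab (i + 1) (j + 1))
      (fun hc => hdn ⟨i, j, hij, hc.1, hc.2.1, hc.2.2⟩)
    show gg _ _ + gg _ _ + gg _ _ = 0
    linear_combination this
  -- row sums
  set H : ℕ → ZMod 2 := fun j => ∑ i ∈ range (n - j), h i j with hH
  have row : ∀ j, j < n → H j + H (j + 1) + v 0 j + d (n - 1 - j) j = 0 := by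
    intro j hj
    obtain ⟨m, hm⟩ : ∃ m, n - j = m + 1 := ⟨n - j - 1, by omega⟩
    have e1 : n - (j + 1) = m := by omega
    have e2 : n - 1 - j = m := by omega
    have s1 : ∑ i ∈ range (m + 1), (h i j + v i j + d i j) = 0 := by
      apply sum_eq_zero
      intro i hi
      rw [mem_range] at hi
      exact up i j (by omega)
    have s2 : ∑ i ∈ range m, (d i j + h i (j + 1) + v (i + 1) j) = 0 := by
      apply sum_eq_zero
      intro i hi
      rw [mem_range] at hi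
      exact dn i j (by omega)
    rw [sum_add_distrib, sum_add_distrib] at s1 s2
    rw [sum_range_succ' (fun i => v i j), sum_range_succ (fun i => d i j)] at s1
    have s3 : H j = ∑ i ∈ range (m + 1), h i j := by rw [hH]; simp only; rw [hm]
    have s4 : H (j + 1) = ∑ i ∈ range m, h i (j + 1) := by rw [hH]; simp only; rw [e1]
    rw [s3, s4, e2]
    have z1 := z2 (∑ i ∈ range m, d i j)
    have z3 := z2 (∑ i ∈ range m, v (i + 1) j)
    linear_combination s1 + s2 - z1 - z3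
  have total : ∑ j ∈ range n, (H j + H (j + 1) + v 0 j + d (n - 1 - j) j) = 0 := by
    apply sum_eq_zero
    intro j hj
    exact row j (mem_range.1 hj)
  rw [sum_add_distrib, sum_add_distrib, tel2] at total
  have t0 : H 0 = 0 := by
    rw [hH]
    apply sum_eq_zero
    intro i hi
    rw [mem_range] at hi
    exact gg_side0 _ _ (h0 i (by omega)) (h0 (i + 1) (by omega))
  have tn : H n = 0 := by
    rw [hH]
    simp
  have tv : ∑ j ∈ range n, v 0 j = 0 := by
    apply sum_eq_zero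
    intro j hj
    rw [mem_range] at hj
    exact gg_side1 _ _ (h1 j (by omega)) (h1 (j + 1) (by omega))
  have td : ∑ j ∈ range n, d (n - 1 - j) j = ∑ j ∈ range n, (vv (lab (n - j) j) + vv (lab (n - (j + 1)) (j + 1))) := by
    apply sum_congr rfl
    intro j hj
    rw [mem_range] at hj
    show gg (lab (n - 1 - j + 1) j) (lab (n - 1 - j) (j + 1)) = _
    have e1 : n - 1 - j + 1 = n - j := by omega
    have e2 : n - 1 - j = n - (j + 1) := by omega
    rw [e1, e2, gg_side _ _ (h2 _ _ (by omega)) (h2 _ _ (by omega)), add_comm]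
  rw [t0, tn, tv, td, tel2 (fun j => vv (lab (n - j) j))] at total
  simp only [Nat.sub_zero, Nat.sub_self] at total
  have c1 : lab n 0 = 1 := by
    have a1 := h0 n le_rfl
    have a2 := h2 n 0 (by omega)
    revert a1 a2
    generalize lab n 0 = x
    revert x
    decide
  have c2 : lab 0 n = 0 := by
    have a1 := h1 n le_rfl
    have a2 := h2 0 n (by omega)
    revert a1 a2
    generalize lab 0 n = x
    revert x
    decide
  rw [c1, c2] at total
  exact absurd total (by decide)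

theorem Adj_symm {u v : V} (h : Adj u v) : Adj v u := by
  obtain ⟨k, h | h⟩ := h
  · exact ⟨k, Or.inr h⟩
  · exact ⟨k, Or.inl h⟩

/-- monochromatic connection inside the triangle -/
def MR (a : V) (n : ℕ) (X : Finset V) (x y : V) : Prop := InTri a n x ∧ InTri a n y ∧ Adj x y ∧ (x ∈ X ↔ y ∈ X)

theorem MR_symm {a : V} {n : ℕ} {X : Finset V} {x y : V} (h : Relation.ReflTransGen (MR a n X) x y) :
    Relation.ReflTransGen (MR a n X) y x := by
  induction h with
  | refl => exact Relation.ReflTransGen.refl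
  | tail _ hbc ih => exact Relation.ReflTransGen.head ⟨hbc.2.1, hbc.1, Adj_symm hbc.2.2.1, hbc.2.2.2.symm⟩ ih

/-- the finite triangle -/
noncomputable def triF (a : V) (n : ℕ) : Finset V :=
  ((range (n + 1)) ×ˢ (range (n + 1))).image (fun q => ((a.1 + q.1, a.2 + q.2) : V))

theorem inTri_fin {a : V} {n : ℕ} {v : V} (h : InTri a n v) : v ∈ triF a n := by
  rw [triF, mem_image]
  refine ⟨((v.1 - a.1).toNat, (v.2 - a.2).toNat), ?_, ?_⟩
  · obtain ⟨h1, h2, h3⟩ := h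
    rw [mem_product, mem_range, mem_range]
    constructor
    · show (v.1 - a.1).toNat < n + 1
      omega
    · show (v.2 - a.2).toNat < n + 1
      omega
  · obtain ⟨h1, h2, h3⟩ := h
    ext
    · show a.1 + ((v.1 - a.1).toNat : ℤ) = v.1
      omega
    · show a.2 + ((v.2 - a.2).toNat : ℤ) = v.2
      omega

/-- monochromatic cluster of v inside the triangle -/
noncomputable def cl (a : V) (n : ℕ) (X : Finset V) (v : V) : Finset V :=
  (triF a n).filter (fun u => Relation.ReflTransGen (MR a n X) v u ∧ InTri a n u)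

theorem mem_cl {a : V} {n : ℕ} {X : Finset V} {v u : V} :
    u ∈ cl a n X v ↔ Relation.ReflTransGen (MR a n X) v u ∧ InTri a n u := by
  rw [cl, mem_filter]
  exact ⟨fun h => h.2, fun h => ⟨inTri_fin h.2, h⟩⟩

theorem cl_eq {a : V} {n : ℕ} {X : Finset V} {v w : V} (h : Relation.ReflTransGen (MR a n X) v w) :
    cl a n X v = cl a n X w := by
  ext u
  rw [mem_cl, mem_cl]
  constructor
  · rintro ⟨h1, h2⟩
    exact ⟨(MR_symm h).trans h1, h2⟩
  · rintro ⟨h1, h2⟩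
    exact ⟨h.trans h1, h2⟩

theorem cl_mono {a : V} {n : ℕ} {X : Finset V} {v w : V} (h : Relation.ReflTransGen (MR a n X) v w) :
    (v ∈ X ↔ w ∈ X) := by
  induction h with
  | refl => exact Iff.rfl
  | tail _ hbc ih => exact ih.trans hbc.2.2.2

theorem cl_conn {a : V} {n : ℕ} {X : Finset V} {v : V} : Conn (cl a n X v) := by
  have key : ∀ w, InTri a n w → ∀ u, Relation.ReflTransGen (MR a n X) w u →
      Relation.ReflTransGen (fun x y => y ∈ cl a n X w ∧ Adj x y) w u := by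
    intro w hw u hu
    induction hu with
    | refl => exact Relation.ReflTransGen.refl
    | @tail b c hb hbc ih =>
      exact ih.tail ⟨mem_cl.2 ⟨hb.tail hbc, hbc.2.1⟩, hbc.2.2.1⟩
  intro u hu w hw
  obtain ⟨hu1, hu2⟩ := mem_cl.1 hu
  obtain ⟨hw1, hw2⟩ := mem_cl.1 hw
  have h1 := key u hu2 w ((MR_symm hu1).trans hw1)
  rw [← cl_eq hu1] at h1
  exact h1

/-- the lemma behind the game of Y: every 2-colouring of a lattice triangle has a monochromatic connected set touching the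
three sides -/
theorem yLemma (a : V) (n : ℕ) (X : Finset V) :
    ∃ K : Finset V, Spans a n K ∧ ((∀ v ∈ K, v ∈ X) ∨ (∀ v ∈ K, v ∉ X)) := by
  by_contra hcon
  -- no cluster touches the three sides
  have hno : ∀ v, InTri a n v → (∃ u ∈ cl a n X v, u.2 = a.2) → (∃ u ∈ cl a n X v, u.1 = a.1) →
      ¬ (∃ u ∈ cl a n X v, u.1 + u.2 = a.1 + a.2 + n) := by
    intro v hv h1 h2 h3
    apply hcon
    refine ⟨cl a n X v, ⟨fun u hu => (mem_cl.1 hu).2, cl_conn, h1, h2, h3⟩, ?_⟩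
    by_cases hvX : v ∈ X
    · left
      intro u hu
      exact (cl_mono (mem_cl.1 hu).1).1 hvX
    · right
      intro u hu hcon'
      exact hvX ((cl_mono (mem_cl.1 hu).1).2 hcon')
  set pt : ℕ → ℕ → V := fun i j => (a.1 + i, a.2 + j) with hpt
  obtain ⟨lb, hlb⟩ : ∃ lb : V → Fin 3, lb = fun v => if (∃ u ∈ cl a n X v, u.2 = a.2) then
    (if (∃ u ∈ cl a n X v, u.1 = a.1) then 2 else 1) else 0 := ⟨_, rfl⟩
  have hin : ∀ i j : ℕ, i + j ≤ n → InTri a n (pt i j) := by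
    intro i j hij
    refine ⟨?_, ?_, ?_⟩
    · show a.1 ≤ a.1 + (i : ℤ)
      omega
    · show a.2 ≤ a.2 + (j : ℤ)
      omega
    · show a.1 + (i : ℤ) + (a.2 + (j : ℤ)) ≤ a.1 + a.2 + n
      omega
  have hself : ∀ v, InTri a n v → v ∈ cl a n X v := fun v hv => mem_cl.2 ⟨Relation.ReflTransGen.refl, hv⟩
  have hlbeq : ∀ v w, InTri a n v → InTri a n w → Adj v w → (v ∈ X ↔ w ∈ X) → lb v = lb w := by
    intro v w hv hw h1 h2
    have h3 : cl a n X v = cl a n X w := cl_eq (Relation.ReflTransGen.single ⟨hv, hw, h1, h2⟩)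
    rw [hlb]
    simp only [h3]
  have three : ∀ u v w, InTri a n u → InTri a n v → InTri a n w → Adj u v → Adj v w → Adj u w →
      ¬ (lb u ≠ lb v ∧ lb v ≠ lb w ∧ lb u ≠ lb w) := by
    rintro u v w hu hv hw a1 a2 a3 ⟨b1, b2, b3⟩
    have c1 : ¬ (u ∈ X ↔ v ∈ X) := fun h => b1 (hlbeq u v hu hv a1 h)
    have c2 : ¬ (v ∈ X ↔ w ∈ X) := fun h => b2 (hlbeq v w hv hw a2 h)
    have c3 : ¬ (u ∈ X ↔ w ∈ X) := fun h => b3 (hlbeq u w hu hw a3 h)
    tauto
  have g0 : ∀ i, i ≤ n → lb (pt i 0) ≠ 0 := by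
    intro i hi
    show lb (pt i 0) ≠ 0
    rw [hlb]
    simp only
    rw [if_pos ⟨pt i 0, hself _ (hin _ _ (by omega)), by show a.2 + ((0 : ℕ) : ℤ) = a.2; simp⟩]
    split_ifs
    · decide
    · decide
  have g1 : ∀ j, j ≤ n → lb (pt 0 j) ≠ 1 := by
    intro j hj
    show lb (pt 0 j) ≠ 1
    rw [hlb]
    simp only
    have h4 : ∃ u ∈ cl a n X (pt 0 j), u.1 = a.1 :=
      ⟨pt 0 j, hself _ (hin _ _ (by omega)), by show a.1 + ((0 : ℕ) : ℤ) = a.1; simp⟩
    rw [if_pos h4]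
    split_ifs <;> decide
  have g2 : ∀ i j, i + j = n → lb (pt i j) ≠ 2 := by
    intro i j hij
    show lb (pt i j) ≠ 2
    have h5 := hno (pt i j) (hin _ _ (by omega))
    have h6 : ∃ u ∈ cl a n X (pt i j), u.1 + u.2 = a.1 + a.2 + n := by
      refine ⟨pt i j, hself _ (hin _ _ (by omega)), ?_⟩
      show a.1 + (i : ℤ) + (a.2 + (j : ℤ)) = a.1 + a.2 + n
      rw [← hij]
      push_cast
      ring
    rw [hlb]
    simp only
    by_cases h7 : ∃ u ∈ cl a n X (pt i j), u.2 = a.2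
    · rw [if_pos h7]
      by_cases h8 : ∃ u ∈ cl a n X (pt i j), u.1 = a.1
      · exact absurd h6 (h5 h7 h8)
      · rw [if_neg h8]
        decide
    · rw [if_neg h7]
      decide
  rcases sperner n (fun i j => lb (pt i j)) g0 g1 g2 with ⟨i, j, hij, h1, h2, h3⟩ | ⟨i, j, hij, h1, h2, h3⟩
  · refine three (pt i j) (pt (i + 1) j) (pt i (j + 1)) (hin _ _ (by omega)) (hin _ _ (by omega))
      (hin _ _ (by omega)) ⟨0, Or.inl ?_⟩ ⟨2, Or.inr ?_⟩ ⟨1, Or.inl ?_⟩ ⟨h1, h2, h3⟩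
    · show ((a.1 + ((i + 1 : ℕ) : ℤ), a.2 + (j : ℤ)) : V) = (a.1 + (i : ℤ), a.2 + (j : ℤ)) + (1, 0)
      ext <;> push_cast <;> simp <;> ring
    · show ((a.1 + ((i + 1 : ℕ) : ℤ), a.2 + (j : ℤ)) : V) = (a.1 + (i : ℤ), a.2 + ((j + 1 : ℕ) : ℤ)) + (1, -1)
      ext <;> push_cast <;> simp <;> ring
    · show ((a.1 + (i : ℤ), a.2 + ((j + 1 : ℕ) : ℤ)) : V) = (a.1 + (i : ℤ), a.2 + (j : ℤ)) + (0, 1)
      ext <;> push_cast <;> simp <;> ring
  · refine three (pt (i + 1) j) (pt i (j + 1)) (pt (i + 1) (j + 1)) (hin _ _ (by omega)) (hin _ _ (by omega))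
      (hin _ _ (by omega)) ⟨2, Or.inr ?_⟩ ⟨0, Or.inl ?_⟩ ⟨1, Or.inl ?_⟩ ⟨h1, h2, h3⟩
    · show ((a.1 + ((i + 1 : ℕ) : ℤ), a.2 + (j : ℤ)) : V) = (a.1 + (i : ℤ), a.2 + ((j + 1 : ℕ) : ℤ)) + (1, -1)
      ext <;> push_cast <;> simp <;> ring
    · show ((a.1 + ((i + 1 : ℕ) : ℤ), a.2 + ((j + 1 : ℕ) : ℤ)) : V) =
        (a.1 + (i : ℤ), a.2 + ((j + 1 : ℕ) : ℤ)) + (1, 0)
      ext <;> push_cast <;> simp <;> ring
    · show ((a.1 + ((i + 1 : ℕ) : ℤ), a.2 + ((j + 1 : ℕ) : ℤ)) : V) =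
        (a.1 + ((i + 1 : ℕ) : ℤ), a.2 + (j : ℤ)) + (0, 1)
      ext <;> push_cast <;> simp <;> ring

end XorIsing
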