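import Pool.Agent.Work.MP_bda6fa_XOR.PartA
import Pool.Agent.Work.MP_bda6fa_XOR.Sperner
set_option autoImplicit false

/-! Flipping one spin on the random-cluster clusters of given triangles. -/

namespace XorIsing
open scoped Classical
open Finset

/-- configurations constant on the clusters of ω, + outside D -/
noncomputable def compat (D : Finset V) (ω : Finset Edge) : Finset (Finset V) :=
  D.powerset.filter (fun M => ∀ e ∈ ω, (e.1 ∈ M ↔ tip e ∈ M))

theorem mem_compat {D M : Finset V} {ω : Finset Edge} :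
    M ∈ compat D ω ↔ M ⊆ D ∧ ∀ e ∈ ω, (e.1 ∈ M ↔ tip e ∈ M) := by
  rw [compat, mem_filter, mem_powerset]

theorem compat_conn {D M : Finset V} {ω : Finset Edge} (hM : M ∈ compat D ω) {u v : V} (h : FConn ω u v) :
    (u ∈ M ↔ v ∈ M) := by
  have hM2 := (mem_compat.1 hM).2
  induction h with
  | refl => exact Iff.rfl
  | @tail b c _ hbc ih =>
    refine ih.trans ?_
    obtain ⟨k, ⟨h1, h2⟩ | ⟨h1, h2⟩⟩ := hbc
    · have := hM2 _ h1
      have h3 : tip (b, k) = c := h2.symm
      rw [h3] at this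
      exact this
    · have := hM2 _ h1
      have h3 : tip (c, k) = b := h2.symm
      rw [h3] at this
      exact this.symm

theorem FConn_symm {ω : Finset Edge} {u v : V} (h : FConn ω u v) : FConn ω v u := by
  induction h with
  | refl => exact Relation.ReflTransGen.refl
  | @tail b c _ hbc ih =>
    refine Relation.ReflTransGen.head ?_ ih
    obtain ⟨k, h1 | h1⟩ := hbc
    · exact ⟨k, Or.inr h1⟩
    · exact ⟨k, Or.inl h1⟩

theorem FConn_edge {ω : Finset Edge} {e : Edge} (he : e ∈ ω) : FConn ω e.1 (tip e) :=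
  Relation.ReflTransGen.single ⟨e.2, Or.inl ⟨he, rfl⟩⟩

theorem mem_fclusters {D : Finset V} {ω : Finset Edge} {C : Finset V} : C ∈ fclusters D ω ↔
    ∃ v ∈ D, (∀ w, FConn ω v w → w ∈ D) ∧ ∀ u, u ∈ C ↔ FConn ω v u := by
  rw [fclusters, mem_image]
  constructor
  · rintro ⟨v, hv, rfl⟩
    obtain ⟨h1, h2⟩ := mem_filter.1 hv
    refine ⟨v, h1, h2, fun u => ?_⟩
    rw [mem_filter]
    exact ⟨fun h => h.2, fun h => ⟨h2 u h, h⟩⟩
  · rintro ⟨v, h1, h2, h3⟩
    refine ⟨v, mem_filter.2 ⟨h1, h2⟩, ?_⟩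
    ext u
    rw [mem_filter, h3]
    exact ⟨fun h => h.2, fun h => ⟨h2 u h, h⟩⟩

theorem card_compat (D : Finset V) (ω : Finset Edge) : (compat D ω).card = 2 ^ (fclusters D ω).card := by
  rw [← card_powerset]
  symm
  refine card_nbij' (fun S => S.biUnion id) (fun M => (fclusters D ω).filter (fun C => C ⊆ M)) ?_ ?_ ?_ ?_
  · intro S hS
    rw [mem_coe, mem_powerset] at hS
    rw [mem_coe, mem_compat]
    constructor
    · intro v hv
      obtain ⟨C, hC, hvC⟩ := mem_biUnion.1 hv
      obtain ⟨w, -, h2, h3⟩ := mem_fclusters.1 (hS hC)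
      exact h2 v ((h3 v).1 hvC)
    · intro e he
      constructor
      · intro h
        obtain ⟨C, hC, hvC⟩ := mem_biUnion.1 h
        obtain ⟨w, -, h2, h3⟩ := mem_fclusters.1 (hS hC)
        refine mem_biUnion.2 ⟨C, hC, ?_⟩
        rw [id, h3]
        exact ((h3 _).1 hvC).trans (FConn_edge he)
      · intro h
        obtain ⟨C, hC, hvC⟩ := mem_biUnion.1 h
        obtain ⟨w, -, h2, h3⟩ := mem_fclusters.1 (hS hC)
        refine mem_biUnion.2 ⟨C, hC, ?_⟩
        rw [id, h3]
        exact ((h3 _).1 hvC).trans (FConn_symm (FConn_edge he))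
  · intro M _
    rw [mem_coe, mem_powerset]
    exact filter_subset _ _
  · intro S hS
    rw [mem_coe, mem_powerset] at hS
    ext C
    rw [mem_filter]
    constructor
    · rintro ⟨h1, h2⟩
      obtain ⟨v, -, h4, h5⟩ := mem_fclusters.1 h1
      have hv : v ∈ C := (h5 v).2 Relation.ReflTransGen.refl
      obtain ⟨C', hC', hvC'⟩ := mem_biUnion.1 (h2 hv)
      obtain ⟨w, -, h6, h7⟩ := mem_fclusters.1 (hS hC')
      have hwv := (h7 v).1 hvC'
      have : C = C' := by
        ext u
        rw [h5, h7]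
        exact ⟨fun h => hwv.trans h, fun h => (FConn_symm hwv).trans h⟩
      rw [this]
      exact hC'
    · intro h
      exact ⟨hS h, fun v hv => mem_biUnion.2 ⟨C, h, hv⟩⟩
  · intro M hM
    have hM' := mem_coe.1 hM
    obtain ⟨hM1, -⟩ := mem_compat.1 hM'
    ext v
    rw [mem_biUnion]
    constructor
    · rintro ⟨C, hC, hv⟩
      exact (mem_filter.1 hC).2 hv
    · intro hv
      have h1 : ∀ w, FConn ω v w → w ∈ M := fun w hw => (compat_conn hM' hw).1 hv
      refine ⟨D.filter (fun u => FConn ω v u), mem_filter.2 ⟨?_, ?_⟩, ?_⟩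
      · refine mem_fclusters.2 ⟨v, hM1 hv, fun w hw => hM1 (h1 w hw), fun u => ?_⟩
        rw [mem_filter]
        exact ⟨fun h => h.2, fun h => ⟨hM1 (h1 u h), h⟩⟩
      · intro u hu
        exact h1 u (mem_filter.1 hu).2
      · rw [id, mem_filter]
        exact ⟨hM1 hv, Relation.ReflTransGen.refl⟩

/-- Edwards-Sokal expansion of the Ising weight -/
theorem wt_expand (β : ℝ) {D M : Finset V} (hM : M ⊆ D) : wt β D M = Real.exp (-β) ^ (near D).card *
    ∑ ω ∈ (near D).powerset, (Real.exp (2 * β) - 1) ^ ω.card * (if M ∈ compat D ω then 1 else 0) := by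
  unfold wt
  rw [mul_sum, Real.exp_sum]
  have h1 : ∀ e ∈ near D, Real.exp (β * (spin M e.1 * spin M (tip e))) =
      Real.exp (-β) * (1 + (Real.exp (2 * β) - 1) * (if (e.1 ∈ M ↔ tip e ∈ M) then 1 else 0)) := by
    intro e _
    by_cases h : (e.1 ∈ M ↔ tip e ∈ M)
    · rw [if_pos h]
      have h2 : spin M e.1 * spin M (tip e) = 1 := by
        unfold spin
        by_cases h3 : e.1 ∈ M
        · rw [if_pos h3, if_pos (h.1 h3)]
          norm_num
        · rw [if_neg h3, if_neg (fun h4 => h3 (h.2 h4))]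
          norm_num
      rw [h2]
      have h3 : Real.exp (-β) * Real.exp (2 * β) = Real.exp β := by
        rw [← Real.exp_add]
        congr 1
        ring
      rw [mul_one]
      linear_combination - h3
    · rw [if_neg h]
      have h2 : spin M e.1 * spin M (tip e) = -1 := by
        unfold spin
        by_cases h3 : e.1 ∈ M
        · rw [if_pos h3, if_neg (fun h4 => h ⟨fun _ => h4, fun _ => h3⟩)]
          norm_num
        · have h4 : tip e ∈ M := by
            by_contra h4
            exact h ⟨fun h5 => absurd h5 h3, fun h5 => absurd h5 h4⟩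
          rw [if_neg h3, if_pos h4]
          norm_num
      rw [h2]
      simp
  rw [prod_congr rfl h1, prod_mul_distrib, prod_const, Finset.prod_one_add]
  congr 1
  apply sum_congr rfl
  intro ω _
  rw [prod_mul_distrib, prod_const]
  congr 1
  by_cases h : M ∈ compat D ω
  · rw [if_pos h]
    apply prod_eq_one
    intro e he
    rw [if_pos ((mem_compat.1 h).2 e he)]
  · rw [if_neg h]
    rw [mem_compat, not_and] at h
    have h2 := h hM
    push Not at h2
    obtain ⟨e, he, h3⟩ := h2
    refine prod_eq_zero he ?_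
    rw [if_neg]
    tauto

/-- the flip set -/
noncomputable def flipS (D : Finset V) {k : ℕ} (a : Fin k → V) (n : Fin k → ℕ) (ω : Finset Edge)
    (ε : Finset (Fin k)) : Finset V :=
  D.filter (fun v => ∃ i ∈ ε, ∃ q, InTri (a i) (n i) q ∧ FConn ω q v)

theorem flipS_conn {D : Finset V} {k : ℕ} {a : Fin k → V} {n : Fin k → ℕ} {ω : Finset Edge}
    (hS : Sep D a n ω) (ε : Finset (Fin k)) {u v : V} (h : FConn ω u v) (hu : u ∈ flipS D a n ω ε) :
    v ∈ flipS D a n ω ε := by
  obtain ⟨-, i, hi, q, hq, hqu⟩ := mem_filter.1 hu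
  exact mem_filter.2 ⟨hS.1 i q hq v (hqu.trans h), i, hi, q, hq, hqu.trans h⟩

theorem flipS_compat {D : Finset V} {k : ℕ} {a : Fin k → V} {n : Fin k → ℕ} {ω : Finset Edge}
    (hS : Sep D a n ω) (ε : Finset (Fin k)) {M : Finset V} (hM : M ∈ compat D ω) :
    symmDiff M (flipS D a n ω ε) ∈ compat D ω := by
  obtain ⟨h1, h2⟩ := mem_compat.1 hM
  refine mem_compat.2 ⟨symmDiff_sub h1 (filter_subset _ _), fun e he => ?_⟩
  have h3 := h2 e he
  have h4 : e.1 ∈ flipS D a n ω ε ↔ tip e ∈ flipS D a n ω ε :=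
    ⟨flipS_conn hS ε (FConn_edge he), flipS_conn hS ε (FConn_symm (FConn_edge he))⟩
  rw [mem_symmDiff, mem_symmDiff]
  tauto

theorem flipS_tri {D : Finset V} {k : ℕ} {a : Fin k → V} {n : Fin k → ℕ} {ω : Finset Edge}
    (hS : Sep D a n ω) (ε : Finset (Fin k)) {i : Fin k} {v : V} (hv : InTri (a i) (n i) v) :
    v ∈ flipS D a n ω ε ↔ i ∈ ε := by
  rw [flipS, mem_filter]
  constructor
  · rintro ⟨-, j, hj, q, hq, hqv⟩
    by_contra hi
    have hij : j ≠ i := fun h => hi (h ▸ hj)
    exact hS.2 j i hij q v hq hv hqv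
  · intro hi
    exact ⟨hS.1 i v hv v Relation.ReflTransGen.refl, i, hi, v, hv, Relation.ReflTransGen.refl⟩

/-- a loop surrounds all or none of the faces of a connected monochromatic set -/
theorem surr_const {X K : Finset V} (hK : Conn K) (hc : ∀ u ∈ K, ∀ v ∈ K, (u ∈ X ↔ v ∈ X)) {L : Finset Edge}
    (hL : L ∈ loops X) : (∀ v ∈ K, Surrounds L v) ∨ (∀ v ∈ K, ¬ Surrounds L v) := by
  have key : ∀ u ∈ K, ∀ v, Relation.ReflTransGen (fun x y => y ∈ K ∧ Adj x y) u v →
      v ∈ K ∧ (Surrounds L u ↔ Surrounds L v) := by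
    intro u hu v h
    induction h with
    | refl => exact ⟨hu, Iff.rfl⟩
    | @tail b c _ hbc ih =>
      refine ⟨hbc.1, ih.2.trans ?_⟩
      have h1 := hc b ih.1 c hbc.1
      obtain ⟨k, hk | hk⟩ := hbc.2
      · have h3 : tip (b, k) = c := hk.symm
        have h2 := (loop_step hL (b, k)).2 (fun h => by
          have h4 := mem_contour.1 (loop_sub hL h)
          rw [h3] at h4
          exact h4 h1)
        rw [h3] at h2
        exact h2
      · have h3 : tip (c, k) = b := hk.symm
        have h2 := (loop_step hL (c, k)).2 (fun h => by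
          have h4 := mem_contour.1 (loop_sub hL h)
          rw [h3] at h4
          exact h4 h1.symm)
        rw [h3] at h2
        exact h2.symm
  by_cases h : ∃ u ∈ K, Surrounds L u
  · obtain ⟨u, hu, hs⟩ := h
    left
    intro v hv
    exact (key u hu v (hK u hu v hv)).2.1 hs
  · right
    push Not at h
    exact h

theorem flip_aux (M M' F : Finset V) (v : V) : v ∈ symmDiff (symmDiff M F) M' ↔
    ¬ (v ∈ symmDiff M M' ↔ v ∈ F) := by
  simp only [mem_symmDiff]
  by_cases b1 : v ∈ M <;> by_cases b2 : v ∈ M' <;> by_cases b3 : v ∈ F <;> simp [b1, b2, b3]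

/-- some flip produces the pattern -/
theorem exists_flip {D : Finset V} {k : ℕ} {a : Fin k → V} {n : Fin k → ℕ} {ω : Finset Edge}
    (hS : Sep D a n ω) (s : Finset (Fin k)) (M M' : Finset V) :
    ∃ ε : Finset (Fin k), Pat a n s (symmDiff (symmDiff M (flipS D a n ω ε)) M') := by
  have hy := fun i => yLemma (a i) (n i) (symmDiff M M')
  choose K hK1 hK2 using hy
  set ε : Finset (Fin k) := univ.filter (fun i => ¬ ((∀ v ∈ K i, v ∈ symmDiff M M') ↔ i ∈ s)) with hε
  refine ⟨ε, fun i => ?_⟩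
  have hne : ∃ v, v ∈ K i := by
    obtain ⟨v, hv, -⟩ := (hK1 i).2.2.1
    exact ⟨v, hv⟩
  have hmem : ∀ v ∈ K i, (v ∈ symmDiff (symmDiff M (flipS D a n ω ε)) M' ↔ i ∈ s) := by
    intro v hv
    have h1 := flipS_tri hS ε ((hK1 i).1 v hv)
    have h2 : i ∈ ε ↔ ¬ ((∀ v ∈ K i, v ∈ symmDiff M M') ↔ i ∈ s) := by
      rw [hε, mem_filter]
      simp
    have h3 : (∀ v ∈ K i, v ∈ symmDiff M M') ↔ v ∈ symmDiff M M' := by
      constructor
      · exact fun h => h v hv
      · intro h
        rcases hK2 i with h4 | h4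
        · exact h4
        · exact absurd h (h4 v hv)
    have h4 : v ∈ symmDiff (symmDiff M (flipS D a n ω ε)) M' ↔
        ¬ (v ∈ symmDiff M M' ↔ v ∈ flipS D a n ω ε) := flip_aux _ _ _ _
    rw [h4, h1, h2, h3]
    clear h4 h3 h2 h1 hne hε
    by_cases b1 : v ∈ symmDiff M M'
    · by_cases b2 : i ∈ s
      · simp only [b1, b2, not_true_eq_false, iff_false, not_not, iff_true, not_false_eq_true]
      · simp only [b1, b2, not_false_eq_true, iff_false, not_true_eq_false, iff_true, not_not, true_iff,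
          iff_self]
    · by_cases b2 : i ∈ s
      · simp only [b1, b2, iff_true, not_false_eq_true, not_true_eq_false, iff_false, not_not]
      · simp only [b1, b2, iff_true, not_false_eq_true, not_true_eq_false, iff_false, not_not, iff_self]
  refine ⟨K i, hK1 i, fun L hL => surr_const (hK1 i).2.1 (fun u hu v hv => (hmem u hu).trans (hmem v hv).symm) hL,
    fun v hv => ?_⟩
  rw [nloops_odd]
  exact hmem v hv

/-- average over the flips -/
theorem flip_bound {D : Finset V} {k : ℕ} {a : Fin k → V} {n : Fin k → ℕ} {ω : Finset Edge}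
    (hS : Sep D a n ω) (s : Finset (Fin k)) (M' : Finset V) :
    (1 / 2 : ℝ) ^ k * (compat D ω).card ≤
      ∑ M ∈ compat D ω, (if Pat a n s (symmDiff M M') then (1 : ℝ) else 0) := by
  have h1 : ∀ ε : Finset (Fin k), ∑ M ∈ compat D ω, (if Pat a n s (symmDiff M M') then (1 : ℝ) else 0) =
      ∑ M ∈ compat D ω, (if Pat a n s (symmDiff (symmDiff M (flipS D a n ω ε)) M') then (1 : ℝ) else 0) := by
    intro ε
    symm
    refine sum_nbij' (fun M => symmDiff M (flipS D a n ω ε)) (fun M => symmDiff M (flipS D a n ω ε)) ?_ ?_ ?_ ?_ ?_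
    · exact fun M hM => flipS_compat hS ε hM
    · exact fun M hM => flipS_compat hS ε hM
    · intro M _
      simp
    · intro M _
      simp
    · intro M _
      rfl
  have h2 : (2 : ℝ) ^ k * ∑ M ∈ compat D ω, (if Pat a n s (symmDiff M M') then (1 : ℝ) else 0) =
      ∑ ε : Finset (Fin k), ∑ M ∈ compat D ω,
        (if Pat a n s (symmDiff (symmDiff M (flipS D a n ω ε)) M') then (1 : ℝ) else 0) := by
    rw [← sum_congr rfl (fun ε _ => h1 ε), sum_const, card_univ, Fintype.card_finset, Fintype.card_fin]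
    simp
  have h3 : ((compat D ω).card : ℝ) ≤ ∑ ε : Finset (Fin k), ∑ M ∈ compat D ω,
      (if Pat a n s (symmDiff (symmDiff M (flipS D a n ω ε)) M') then (1 : ℝ) else 0) := by
    rw [sum_comm]
    have h4 : ((compat D ω).card : ℝ) = ∑ M ∈ compat D ω, (1 : ℝ) := by simp
    rw [h4]
    apply sum_le_sum
    intro M _
    obtain ⟨ε, hε⟩ := exists_flip hS s M M'
    calc (1 : ℝ) = (if Pat a n s (symmDiff (symmDiff M (flipS D a n ω ε)) M') then (1 : ℝ) else 0) := by
          rw [if_pos hε]
      _ ≤ _ := single_le_sum (f := fun ε => if Pat a n s (symmDiff (symmDiff M (flipS D a n ω ε)) M')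
          then (1 : ℝ) else 0) (fun _ _ => by split_ifs <;> norm_num) (mem_univ ε)
  rw [← h2] at h3
  have h5 : (1 / 2 : ℝ) ^ k * 2 ^ k = 1 := by
    rw [← mul_pow]
    norm_num
  calc (1 / 2 : ℝ) ^ k * (compat D ω).card ≤ (1 / 2 : ℝ) ^ k *
        (2 ^ k * ∑ M ∈ compat D ω, (if Pat a n s (symmDiff M M') then (1 : ℝ) else 0)) :=
        mul_le_mul_of_nonneg_left h3 (by positivity)
    _ = _ := by rw [← mul_assoc, h5, one_mul]

theorem partB {β : ℝ} (hβ : 0 ≤ β) (D : Finset V) {k : ℕ} (a : Fin k → V) (n : Fin k → ℕ) (s : Finset (Fin k)) :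
    (1 / 2) ^ k * (1 - (1 - fkP β D (Sep D a n)) ^ 2) ≤ xorP β D (Pat a n s) := by
  set E := near D with hE
  set c : ℝ := Real.exp (2 * β) - 1 with hc
  have hc0 : 0 ≤ c := by
    rw [hc, sub_nonneg]
    exact Real.one_le_exp (by linarith)
  set q : ℝ := Real.exp (-β) ^ E.card with hq
  have hq0 : 0 < q := pow_pos (Real.exp_pos _) _
  set S : ℝ := ∑ ω ∈ E.powerset, c ^ ω.card * (compat D ω).card with hS
  set S1 : ℝ := ∑ ω ∈ E.powerset, c ^ ω.card * (compat D ω).card * (if Sep D a n ω then 1 else 0) with hS1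
  -- partition function
  have hZ : ZZ β D = q * S := by
    unfold ZZ
    have h1 : ∀ M ∈ D.powerset, wt β D M = q * ∑ ω ∈ E.powerset, c ^ ω.card * (if M ∈ compat D ω then 1 else 0) :=
      fun M hM => wt_expand β (mem_powerset.1 hM)
    rw [sum_congr rfl h1, ← mul_sum, sum_comm]
    congr 1
    apply sum_congr rfl
    intro ω _
    rw [← mul_sum]
    congr 1
    rw [← sum_filter, sum_const, nsmul_eq_mul, mul_one]
    congr 2
    ext M
    rw [mem_filter, mem_powerset]
    exact ⟨fun h => h.2, fun h => ⟨(mem_compat.1 h).1, h⟩⟩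
  have hSpos : 0 < S := by
    have h1 := ZZ_pos β D
    rw [hZ] at h1
    exact (mul_pos_iff_of_pos_left hq0).1 h1
  -- the random-cluster probability
  have hfk : fkP β D (Sep D a n) = S1 / S := by
    have h1 : ∀ ω ∈ E.powerset, fkw β D ω = Real.exp (-2 * β) ^ E.card * (c ^ ω.card * (compat D ω).card) := by
      intro ω hω
      rw [mem_powerset] at hω
      have h2 := card_le_card hω
      unfold fkw
      have h3 : 1 - Real.exp (-2 * β) = c * Real.exp (-2 * β) := by
        rw [hc, sub_mul, ← Real.exp_add, one_mul]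
        have : 2 * β + -2 * β = 0 := by ring
        rw [this, Real.exp_zero]
      rw [h3, card_compat, mul_pow]
      obtain ⟨m, hm⟩ := Nat.exists_eq_add_of_le h2
      have h4 : (near D).card - ω.card = m := by
        rw [← hE]
        omega
      rw [h4, hm, pow_add]
      push_cast
      ring
    unfold fkP
    rw [← hE]
    have h2 : ∑ ω ∈ E.powerset, fkw β D ω * (if Sep D a n ω then 1 else 0) = Real.exp (-2 * β) ^ E.card * S1 := by
      rw [hS1, mul_sum]
      apply sum_congr rfl
      intro ω hω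
      rw [h1 ω hω]
      ring
    have h3 : ∑ ω ∈ E.powerset, fkw β D ω = Real.exp (-2 * β) ^ E.card * S := by
      rw [hS, mul_sum]
      exact sum_congr rfl h1
    rw [h2, h3, mul_div_mul_left _ _ (pow_ne_zero _ (Real.exp_ne_zero _))]
  -- numerator
  set F : Finset V → ℝ := fun X => if Pat a n s X then 1 else 0 with hF
  have hnum : ∑ M ∈ D.powerset, ∑ M' ∈ D.powerset, wt β D M * wt β D M' * F (symmDiff M M') =
      q ^ 2 * ∑ ω ∈ E.powerset, ∑ ω' ∈ E.powerset, c ^ ω.card * c ^ ω'.card *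
        ∑ M ∈ compat D ω, ∑ M' ∈ compat D ω', F (symmDiff M M') := by
    have h1 : ∀ M ∈ D.powerset, ∀ M' ∈ D.powerset, wt β D M * wt β D M' * F (symmDiff M M') =
        q ^ 2 * ∑ ω ∈ E.powerset, ∑ ω' ∈ E.powerset, c ^ ω.card * c ^ ω'.card *
          ((if M ∈ compat D ω then 1 else 0) * ((if M' ∈ compat D ω' then 1 else 0) * F (symmDiff M M'))) := by
      intro M hM M' hM'
      rw [wt_expand β (mem_powerset.1 hM), wt_expand β (mem_powerset.1 hM')]
      rw [← hE, ← hc, ← hq]
      have h2 : (∑ ω ∈ E.powerset, c ^ ω.card * (if M ∈ compat D ω then (1 : ℝ) else 0)) *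
          (∑ ω ∈ E.powerset, c ^ ω.card * (if M' ∈ compat D ω then (1 : ℝ) else 0)) * F (symmDiff M M') =
          ∑ ω ∈ E.powerset, ∑ ω' ∈ E.powerset, c ^ ω.card * c ^ ω'.card *
          ((if M ∈ compat D ω then 1 else 0) * ((if M' ∈ compat D ω' then 1 else 0) * F (symmDiff M M'))) := by
        rw [sum_mul_sum, sum_mul]
        apply sum_congr rfl
        intro ω _
        rw [sum_mul]
        apply sum_congr rfl
        intro ω' _
        ring
      rw [← h2]
      ring
    rw [sum_congr rfl (fun M hM => sum_congr rfl (h1 M hM))]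
    simp only [← mul_sum]
    congr 1
    have h3 : ∀ M ∈ D.powerset, ∑ M' ∈ D.powerset, ∑ ω ∈ E.powerset, ∑ ω' ∈ E.powerset, c ^ ω.card * c ^ ω'.card *
          ((if M ∈ compat D ω then 1 else 0) * ((if M' ∈ compat D ω' then 1 else 0) * F (symmDiff M M'))) =
        ∑ ω ∈ E.powerset, ∑ ω' ∈ E.powerset, c ^ ω.card * c ^ ω'.card * ((if M ∈ compat D ω then 1 else 0) *
          ∑ M' ∈ D.powerset, ((if M' ∈ compat D ω' then 1 else 0) * F (symmDiff M M'))) := by
      intro M _
      rw [sum_comm]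
      apply sum_congr rfl
      intro ω _
      rw [sum_comm]
      apply sum_congr rfl
      intro ω' _
      rw [mul_sum, mul_sum]
    rw [sum_congr rfl h3, sum_comm]
    apply sum_congr rfl
    intro ω _
    rw [sum_comm]
    apply sum_congr rfl
    intro ω' _
    rw [← mul_sum]
    congr 1
    have h4 : ∀ (ω : Finset Edge) (f : Finset V → ℝ), ∑ M ∈ D.powerset, (if M ∈ compat D ω then 1 else 0) * f M =
        ∑ M ∈ compat D ω, f M := by
      intro ω f
      have h5 : ∀ M ∈ D.powerset, (if M ∈ compat D ω then (1 : ℝ) else 0) * f M =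
          if M ∈ compat D ω then f M else 0 := by
        intro M _
        split_ifs <;> ring
      rw [sum_congr rfl h5, ← sum_filter]
      apply sum_congr _ (fun _ _ => rfl)
      ext M
      rw [mem_filter, mem_powerset]
      exact ⟨fun h => h.2, fun h => ⟨(mem_compat.1 h).1, h⟩⟩
    rw [h4]
    apply sum_congr rfl
    intro M _
    rw [h4]
  have hF0 : ∀ X, 0 ≤ F X := by
    intro X
    rw [hF]
    simp only
    split_ifs <;> norm_num
  -- pointwise bound
  have hpt : ∀ ω ω' : Finset Edge, (1 / 2 : ℝ) ^ k * ((compat D ω).card * (compat D ω').card) *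
      (1 - (1 - (if Sep D a n ω then 1 else 0)) * (1 - (if Sep D a n ω' then 1 else 0))) ≤
      ∑ M ∈ compat D ω, ∑ M' ∈ compat D ω', F (symmDiff M M') := by
    intro ω ω'
    have hnn : 0 ≤ ∑ M ∈ compat D ω, ∑ M' ∈ compat D ω', F (symmDiff M M') :=
      sum_nonneg (fun _ _ => sum_nonneg (fun _ _ => hF0 _))
    by_cases h1 : Sep D a n ω
    · rw [if_pos h1, sum_comm]
      have h2 : ∑ M' ∈ compat D ω', (1 / 2 : ℝ) ^ k * (compat D ω).card ≤
          ∑ M' ∈ compat D ω', ∑ M ∈ compat D ω, F (symmDiff M M') :=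
        sum_le_sum (fun M' _ => flip_bound h1 s M')
      rw [sum_const, nsmul_eq_mul] at h2
      refine le_trans (le_of_eq ?_) h2
      ring
    · by_cases h2 : Sep D a n ω'
      · rw [if_neg h1, if_pos h2]
        have h3 : ∑ M ∈ compat D ω, (1 / 2 : ℝ) ^ k * (compat D ω').card ≤
            ∑ M ∈ compat D ω, ∑ M' ∈ compat D ω', F (symmDiff M M') := by
          apply sum_le_sum
          intro M _
          have h4 := flip_bound h2 s M
          refine le_trans h4 (le_of_eq ?_)
          apply sum_congr rfl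
          intro M' _
          rw [symmDiff_comm M M']
        rw [sum_const, nsmul_eq_mul] at h3
        refine le_trans (le_of_eq ?_) h3
        ring
      · rw [if_neg h1, if_neg h2]
        refine le_trans (le_of_eq ?_) hnn
        ring
  have hsum : (1 / 2 : ℝ) ^ k * (S ^ 2 - (S - S1) ^ 2) ≤ ∑ ω ∈ E.powerset, ∑ ω' ∈ E.powerset,
      c ^ ω.card * c ^ ω'.card * ∑ M ∈ compat D ω, ∑ M' ∈ compat D ω', F (symmDiff M M') := by
    have h1 : (1 / 2 : ℝ) ^ k * (S ^ 2 - (S - S1) ^ 2) = ∑ ω ∈ E.powerset, ∑ ω' ∈ E.powerset,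
        c ^ ω.card * c ^ ω'.card * ((1 / 2 : ℝ) ^ k * ((compat D ω).card * (compat D ω').card) *
        (1 - (1 - (if Sep D a n ω then 1 else 0)) * (1 - (if Sep D a n ω' then 1 else 0)))) := by
      have h2 : S ^ 2 = ∑ ω ∈ E.powerset, ∑ ω' ∈ E.powerset, (c ^ ω.card * (compat D ω).card) *
          (c ^ ω'.card * (compat D ω').card) := by
        rw [sq, hS, sum_mul_sum]
      have h3 : (S - S1) = ∑ ω ∈ E.powerset, (c ^ ω.card * (compat D ω).card) *
          (1 - (if Sep D a n ω then 1 else 0)) := by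
        rw [hS, hS1, ← sum_sub_distrib]
        apply sum_congr rfl
        intro ω _
        ring
      have h4 : (S - S1) ^ 2 = ∑ ω ∈ E.powerset, ∑ ω' ∈ E.powerset, ((c ^ ω.card * (compat D ω).card) *
          (1 - (if Sep D a n ω then 1 else 0))) * ((c ^ ω'.card * (compat D ω').card) *
          (1 - (if Sep D a n ω' then 1 else 0))) := by
        rw [sq, h3, sum_mul_sum]
      rw [h2, h4, ← sum_sub_distrib, mul_sum]
      apply sum_congr rfl
      intro ω _
      rw [← sum_sub_distrib, mul_sum]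
      apply sum_congr rfl
      intro ω' _
      ring
    rw [h1]
    apply sum_le_sum
    intro ω _
    apply sum_le_sum
    intro ω' _
    exact mul_le_mul_of_nonneg_left (hpt ω ω') (mul_nonneg (pow_nonneg hc0 _) (pow_nonneg hc0 _))
  have hfin : xorP β D (Pat a n s) = (∑ ω ∈ E.powerset, ∑ ω' ∈ E.powerset,
      c ^ ω.card * c ^ ω'.card * ∑ M ∈ compat D ω, ∑ M' ∈ compat D ω', F (symmDiff M M')) / S ^ 2 := by
    unfold xorP
    rw [hnum, hZ, mul_pow, mul_div_mul_left _ _ (pow_ne_zero 2 hq0.ne')]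
  rw [hfin, hfk, le_div_iff₀ (pow_pos hSpos 2)]
  refine le_trans (le_of_eq ?_) hsum
  field_simp

end XorIsing
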