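import Pool.Agent.Work.MP_bda6fa_XOR.PartA
import Pool.Agent.Work.MP_bda6fa_XOR.Defs2
set_option autoImplicit false

/-! The length of XOR loops and the derivative of Ising correlations. -/

namespace XorIsing
open scoped Classical
open Finset

/-- energy of an edge -/
noncomputable def en (e : Edge) (M : Finset V) : ℝ := spin M e.1 * spin M (tip e)

/-- spin product -/
noncomputable def sA (A M : Finset V) : ℝ := ∏ a ∈ A, spin M a

/-- Ising expectation -/
noncomputable def ex (β : ℝ) (D : Finset V) (f : Finset V → ℝ) : ℝ := (∑ M ∈ D.powerset, wt β D M * f M) / ZZ β D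

theorem en_sq (e : Edge) (M : Finset V) : en e M * en e M = 1 := by
  unfold en
  linear_combination (spin M (tip e) * spin M (tip e)) * spin_sq M e.1 + spin_sq M (tip e)

theorem deriv_wt (D M : Finset V) (β : ℝ) :
    HasDerivAt (fun b => wt b D M) (wt β D M * ∑ e ∈ near D, en e M) β := by
  unfold wt en
  have h1 : HasDerivAt (fun b : ℝ => b * ∑ e ∈ near D, spin M e.1 * spin M (tip e))
      (1 * ∑ e ∈ near D, spin M e.1 * spin M (tip e)) β := (hasDerivAt_id β).mul_const _
  have h2 := h1.exp
  rw [one_mul] at h2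
  exact h2

theorem deriv_corr (D A : Finset V) (β : ℝ) : HasDerivAt (fun b => corr b D A)
    (∑ e ∈ near D, (ex β D (fun M => sA A M * en e M) - ex β D (sA A) * ex β D (en e))) β := by
  have h1 : HasDerivAt (fun b => ∑ M ∈ D.powerset, wt b D M * ∏ a ∈ A, spin M a)
      (∑ M ∈ D.powerset, (wt β D M * ∑ e ∈ near D, en e M) * ∏ a ∈ A, spin M a) β := by
    apply HasDerivAt.fun_sum
    intro M _
    exact (deriv_wt D M β).mul_const _
  have h2 : HasDerivAt (fun b => ZZ b D) (∑ M ∈ D.powerset, wt β D M * ∑ e ∈ near D, en e M) β := by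
    unfold ZZ
    apply HasDerivAt.fun_sum
    intro M _
    exact deriv_wt D M β
  have hZ := ZZ_pos β D
  have h3 := h1.div h2 hZ.ne'
  have h4 : (∑ e ∈ near D, (ex β D (fun M => sA A M * en e M) - ex β D (sA A) * ex β D (en e))) =
      ((∑ M ∈ D.powerset, (wt β D M * ∑ e ∈ near D, en e M) * ∏ a ∈ A, spin M a) * ZZ β D -
        (∑ M ∈ D.powerset, wt β D M * ∏ a ∈ A, spin M a) * ∑ M ∈ D.powerset, wt β D M * ∑ e ∈ near D, en e M) /
        ZZ β D ^ 2 := by
    rw [sum_sub_distrib, ← mul_sum]
    have h5 : ∑ e ∈ near D, ex β D (fun M => sA A M * en e M) =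
        (∑ M ∈ D.powerset, (wt β D M * ∑ e ∈ near D, en e M) * ∏ a ∈ A, spin M a) / ZZ β D := by
      unfold ex
      rw [← sum_div]
      congr 1
      rw [sum_comm]
      apply sum_congr rfl
      intro M _
      rw [mul_sum, sum_mul]
      apply sum_congr rfl
      intro e _
      unfold sA
      ring
    have h6 : ∑ e ∈ near D, ex β D (en e) = (∑ M ∈ D.powerset, wt β D M * ∑ e ∈ near D, en e M) / ZZ β D := by
      unfold ex
      rw [← sum_div]
      congr 1
      rw [sum_comm]
      apply sum_congr rfl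
      intro M _
      rw [mul_sum]
    rw [h5, h6]
    unfold ex sA
    field_simp
  rw [h4]
  exact h3

theorem prod_symmDiff_spin (A B M : Finset V) : ∏ a ∈ symmDiff A B, spin M a = (∏ a ∈ A, spin M a) * ∏ a ∈ B, spin M a := by
  have h1 : symmDiff A B = (A \ B) ∪ (B \ A) := rfl
  have h2 : ∏ a ∈ A, spin M a = (∏ a ∈ A \ B, spin M a) * ∏ a ∈ A ∩ B, spin M a := by
    rw [← prod_union (disjoint_sdiff_inter A B), sdiff_union_inter]
  have h3 : ∏ a ∈ B, spin M a = (∏ a ∈ B \ A, spin M a) * ∏ a ∈ A ∩ B, spin M a := by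
    rw [inter_comm, ← prod_union (disjoint_sdiff_inter B A), sdiff_union_inter]
  have h4 : (∏ a ∈ A ∩ B, spin M a) * ∏ a ∈ A ∩ B, spin M a = 1 := by
    rw [← prod_mul_distrib]
    exact prod_eq_one (fun a _ => spin_sq M a)
  rw [h1, prod_union (disjoint_sdiff_sdiff), h2, h3]
  linear_combination - ((∏ a ∈ A \ B, spin M a) * ∏ a ∈ B \ A, spin M a) * h4

theorem tip_ne (e : Edge) : e.1 ≠ tip e := by
  obtain ⟨⟨i, j⟩, k⟩ := e
  intro h
  have h1 := congrArg Prod.fst h
  have h2 := congrArg Prod.snd h
  fin_cases k <;> simp [tip, dir] at h1 h2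

theorem card_symmDiff_parity (A B : Finset V) : (((symmDiff A B).card : ℕ) : ZMod 2) = (A.card : ZMod 2) + B.card := by
  have h1 : symmDiff A B = (A \ B) ∪ (B \ A) := rfl
  rw [h1, card_union_of_disjoint disjoint_sdiff_sdiff]
  have h2 : (A.card : ZMod 2) = ((A \ B).card : ZMod 2) + ((A ∩ B).card : ZMod 2) := by
    rw [← Nat.cast_add, card_sdiff_add_card_inter]
  have h3 : (B.card : ZMod 2) = ((B \ A).card : ZMod 2) + ((A ∩ B).card : ZMod 2) := by
    rw [← Nat.cast_add, inter_comm, card_sdiff_add_card_inter]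
  rw [h2, h3]
  push_cast
  linear_combination - z2 ((A ∩ B).card : ZMod 2)

theorem odd_pair {X : Finset V} {L : Finset Edge} (hL : L ∈ loops X) (e : Edge) :
    Odd (({e.1, tip e} : Finset V).filter (fun a => Surrounds L a)).card ↔ e ∈ L := by
  have h1 := loop_step hL e
  have hne := tip_ne e
  by_cases a1 : Surrounds L e.1 <;> by_cases a2 : Surrounds L (tip e)
  · have h2 : ({e.1, tip e} : Finset V).filter (fun a => Surrounds L a) = {e.1, tip e} := by
      rw [filter_eq_self]
      intro a ha
      rcases mem_insert.1 ha with h | h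
      · rw [h]; exact a1
      · rw [mem_singleton.1 h]; exact a2
    rw [h2, card_pair hne]
    constructor
    · intro h
      exact absurd h (by decide)
    · intro h
      exact absurd h (h1.1 ⟨fun _ => a2, fun _ => a1⟩)
  · have h2 : ({e.1, tip e} : Finset V).filter (fun a => Surrounds L a) = {e.1} := by
      ext a
      simp only [mem_filter, mem_insert, mem_singleton]
      constructor
      · rintro ⟨h | h, h3⟩
        · exact h
        · rw [h] at h3
          exact absurd h3 a2
      · intro h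
        rw [h]
        exact ⟨Or.inl rfl, a1⟩
    rw [h2, card_singleton]
    constructor
    · intro _
      by_contra h3
      exact a2 ((h1.2 h3).1 a1)
    · intro _
      decide
  · have h2 : ({e.1, tip e} : Finset V).filter (fun a => Surrounds L a) = {tip e} := by
      ext a
      simp only [mem_filter, mem_insert, mem_singleton]
      constructor
      · rintro ⟨h | h, h3⟩
        · rw [h] at h3
          exact absurd h3 a1
        · exact h
      · intro h
        rw [h]
        exact ⟨Or.inr rfl, a2⟩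
    rw [h2, card_singleton]
    constructor
    · intro _
      by_contra h3
      exact a1 ((h1.2 h3).2 a2)
    · intro _
      decide
  · have h2 : ({e.1, tip e} : Finset V).filter (fun a => Surrounds L a) = ∅ := by
      rw [filter_eq_empty_iff]
      intro a ha
      rcases mem_insert.1 ha with h | h
      · rw [h]; exact a1
      · rw [mem_singleton.1 h]; exact a2
    rw [h2, card_empty]
    constructor
    · intro h
      exact absurd h (by decide)
    · intro h
      exact absurd h (h1.1 ⟨fun h => absurd h a1, fun h => absurd h a2⟩)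

theorem odd_symm {X : Finset V} {L : Finset Edge} (hL : L ∈ loops X) (A : Finset V) (e : Edge) :
    OddFor (symmDiff A {e.1, tip e}) L ↔ ¬ (OddFor A L ↔ e ∈ L) := by
  have h1 : (symmDiff A {e.1, tip e}).filter (fun a => Surrounds L a) =
      symmDiff (A.filter (fun a => Surrounds L a)) (({e.1, tip e} : Finset V).filter (fun a => Surrounds L a)) := by
    ext a
    simp only [mem_filter, mem_symmDiff]
    tauto
  unfold OddFor
  rw [h1, ← odd_pair hL e, ← ZMod.natCast_eq_one_iff_odd, card_symmDiff_parity, ← ZMod.natCast_eq_one_iff_odd,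
    ← ZMod.natCast_eq_one_iff_odd]
  generalize (((A.filter (fun a => Surrounds L a)).card : ℕ) : ZMod 2) = x
  generalize ((((({e.1, tip e} : Finset V).filter (fun a => Surrounds L a)).card : ℕ) : ZMod 2)) = y
  revert x y
  decide

/-- the good event of an edge -/
def GoodE (A : Finset V) (e : Edge) (X : Finset V) : Prop :=
  e ∈ contour X ∧ ∀ L ∈ loops X, (OddFor A L ↔ e ∈ L)

theorem xorP_eq (β : ℝ) (D : Finset V) (ev : Finset V → Prop) :
    xorP β D ev = xorE β D (fun X => if ev X then 1 else 0) := rfl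

theorem abs_sA (A M : Finset V) : |sA A M| = 1 := by
  unfold sA
  rw [abs_prod]
  apply prod_eq_one
  intro a _
  rcases spin_cases M a with h | h <;> rw [h] <;> norm_num

theorem cov_bound {β : ℝ} {D : Finset V} (hD : CoConn D) (A : Finset V) (e : Edge) :
    1 / 2 * |ex β D (fun M => sA A M * en e M) - ex β D (sA A) * ex β D (en e)| ≤ xorP β D (GoodE A e) := by
  have hZ := ZZ_pos β D
  set S := symmDiff A {e.1, tip e} with hS
  have hSp : ∀ M, ∏ a ∈ S, spin M a = sA A M * en e M := by
    intro M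
    rw [hS, prod_symmDiff_spin, prod_pair (tip_ne e)]
    rfl
  -- the covariance as an expectation over pairs
  have h1 : ∑ p ∈ D.powerset ×ˢ D.powerset, wt β D p.1 * wt β D p.2 *
      ((if e ∈ contour (symmDiff p.1 p.2) then 1 else 0) * ∏ a ∈ S, spin p.1 a) =
      1 / 2 * (ex β D (fun M => sA A M * en e M) - ex β D (sA A) * ex β D (en e)) * ZZ β D ^ 2 := by
    have h2 : ∀ p ∈ D.powerset ×ˢ D.powerset, wt β D p.1 * wt β D p.2 *
        ((if e ∈ contour (symmDiff p.1 p.2) then 1 else 0) * ∏ a ∈ S, spin p.1 a) =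
        1 / 2 * ((wt β D p.1 * (sA A p.1 * en e p.1)) * wt β D p.2) -
        1 / 2 * ((wt β D p.1 * sA A p.1) * (wt β D p.2 * en e p.2)) := by
      intro p _
      have h3 : (if e ∈ contour (symmDiff p.1 p.2) then (1 : ℝ) else 0) = 1 / 2 * (1 - en e p.1 * en e p.2) := by
        have h4 : en e p.1 * en e p.2 = spin (symmDiff p.1 p.2) e.1 * spin (symmDiff p.1 p.2) (tip e) := by
          rw [spin_symmDiff, spin_symmDiff]
          unfold en
          ring
        rw [h4]
        unfold spin
        by_cases h5 : e.1 ∈ symmDiff p.1 p.2 <;> by_cases h6 : tip e ∈ symmDiff p.1 p.2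
        · rw [if_neg (fun h => mem_contour.1 h ⟨fun _ => h6, fun _ => h5⟩), if_pos h5, if_pos h6]
          norm_num
        · rw [if_pos (mem_contour.2 (fun h => h6 (h.1 h5))), if_pos h5, if_neg h6]
          norm_num
        · rw [if_pos (mem_contour.2 (fun h => h5 (h.2 h6))), if_neg h5, if_pos h6]
          norm_num
        · rw [if_neg (fun h => mem_contour.1 h ⟨fun h7 => absurd h7 h5, fun h7 => absurd h7 h6⟩), if_neg h5,
            if_neg h6]
          norm_num
      rw [h3, hSp]
      linear_combination - (1 / 2 * wt β D p.1 * wt β D p.2 * sA A p.1 * en e p.2) * en_sq e p.1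
    rw [sum_congr rfl h2, sum_sub_distrib, ← mul_sum, ← mul_sum, sum_product, sum_product]
    simp only [← sum_mul_sum]
    unfold ex ZZ
    have hZ' : (∑ M ∈ D.powerset, wt β D M) ≠ 0 := hZ.ne'
    field_simp
  have h3 := sum_bad (β := β) hD S (fun X => if e ∈ contour X ∧ ¬ GoodE A e X then 1 else 0) (by
    intro X hX
    by_contra hcon
    push Not at hcon
    apply hX
    rw [if_neg]
    rintro ⟨h4, h5⟩
    apply h5
    refine ⟨h4, fun L hL => ?_⟩
    by_contra h6
    exact Nat.not_odd_iff_even.2 (Nat.not_odd_iff_even.1 (hcon L hL)) ((odd_symm hL A e).2 h6))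
  have h4 : ∑ p ∈ D.powerset ×ˢ D.powerset, wt β D p.1 * wt β D p.2 *
      ((if e ∈ contour (symmDiff p.1 p.2) then 1 else 0) * ∏ a ∈ S, spin p.1 a) =
      ∑ p ∈ D.powerset ×ˢ D.powerset, wt β D p.1 * wt β D p.2 *
      ((if GoodE A e (symmDiff p.1 p.2) then 1 else 0) * ∏ a ∈ S, spin p.1 a) := by
    have h5 : ∑ p ∈ D.powerset ×ˢ D.powerset, wt β D p.1 * wt β D p.2 *
        ((if e ∈ contour (symmDiff p.1 p.2) then 1 else 0) * ∏ a ∈ S, spin p.1 a) =
        ∑ p ∈ D.powerset ×ˢ D.powerset, wt β D p.1 * wt β D p.2 *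
        ((if e ∈ contour (symmDiff p.1 p.2) then 1 else 0) * ∏ a ∈ S, spin p.1 a) -
        ∑ p ∈ D.powerset ×ˢ D.powerset, wt β D p.1 * wt β D p.2 *
        ((if e ∈ contour (symmDiff p.1 p.2) ∧ ¬ GoodE A e (symmDiff p.1 p.2) then 1 else 0) *
          ∏ a ∈ S, spin p.1 a) := by
      rw [h3, sub_zero]
    rw [h5, ← sum_sub_distrib]
    apply sum_congr rfl
    intro p _
    by_cases h6 : GoodE A e (symmDiff p.1 p.2)
    · rw [if_pos h6.1, if_neg (fun h => h.2 h6), if_pos h6]
      ring
    · by_cases h7 : e ∈ contour (symmDiff p.1 p.2)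
      · rw [if_pos h7, if_pos ⟨h7, h6⟩, if_neg h6]
        ring
      · rw [if_neg h7, if_neg (fun h => h7 h.1), if_neg h6]
        ring
  rw [h4] at h1
  have h8 : |∑ p ∈ D.powerset ×ˢ D.powerset, wt β D p.1 * wt β D p.2 *
      ((if GoodE A e (symmDiff p.1 p.2) then 1 else 0) * ∏ a ∈ S, spin p.1 a)| ≤
      ∑ p ∈ D.powerset ×ˢ D.powerset, wt β D p.1 * wt β D p.2 *
      (if GoodE A e (symmDiff p.1 p.2) then 1 else 0) := by
    refine (abs_sum_le_sum_abs _ _).trans (sum_le_sum ?_)
    intro p _
    have h9 : 0 < wt β D p.1 * wt β D p.2 := mul_pos (wt_pos _ _ _) (wt_pos _ _ _)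
    have h10 : |∏ a ∈ S, spin p.1 a| = 1 := abs_sA S p.1
    rw [abs_mul (wt β D p.1 * wt β D p.2) _, abs_mul (if GoodE A e (symmDiff p.1 p.2) then (1 : ℝ) else 0) _, h10,
      mul_one, abs_of_pos h9]
    apply le_of_eq
    congr 1
    split_ifs
    · exact abs_one
    · exact abs_zero
  rw [h1] at h8
  rw [abs_mul, abs_mul, abs_of_pos (show (0 : ℝ) < 1 / 2 by norm_num), abs_of_pos (pow_pos hZ 2)] at h8
  unfold xorP
  rw [le_div_iff₀ (pow_pos hZ 2), ← sum_product' (s := D.powerset) (t := D.powerset)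
    (f := fun M M' => wt β D M * wt β D M' * (if GoodE A e (symmDiff M M') then (1 : ℝ) else 0))]
  exact h8

theorem sum_good {D X : Finset V} (hX : X ⊆ D) (A : Finset V) :
    ∑ e ∈ near D, (if GoodE A e X then (1 : ℝ) else 0) = uniqueLen A X := by
  have h1 : ∑ e ∈ near D, (if GoodE A e X then (1 : ℝ) else 0) =
      ∑ e ∈ contour X, (if GoodE A e X then (1 : ℝ) else 0) := by
    symm
    apply sum_subset
    · intro e he
      have h2 := mem_contour.1 he
      rw [mem_near]
      by_contra h3
      push Not at h3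
      exact h2 ⟨fun h => absurd (hX h) h3.1, fun h => absurd (hX h) h3.2⟩
    · intro e _ he
      rw [if_neg (fun h => he h.1)]
  rw [h1, uniqueLen, ← sum_fiberwise_of_maps_to (fun e he => (loop_self he).1) _]
  apply sum_congr rfl
  intro L hL
  have h2 : (contour X).filter (fun e => loopOf X e = L) = L := by
    ext e
    rw [mem_filter]
    constructor
    · rintro ⟨h3, h4⟩
      rw [← h4]
      exact (loop_self h3).2
    · intro h
      exact ⟨loop_sub hL h, loop_eq hL h⟩
  rw [h2]
  have h3 : ∀ e ∈ L, (if GoodE A e X then (1 : ℝ) else 0) =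
      if OddFor A L ∧ ∀ L' ∈ loops X, OddFor A L' → L' = L then 1 else 0 := by
    intro e he
    apply if_congr _ rfl rfl
    constructor
    · rintro ⟨h4, h5⟩
      refine ⟨(h5 L hL).2 he, fun L' hL' h6 => ?_⟩
      have h7 := (h5 L' hL').1 h6
      rw [← loop_eq hL' h7, loop_eq hL he]
    · rintro ⟨h4, h5⟩
      refine ⟨loop_sub hL he, fun L' hL' => ⟨fun h6 => ?_, fun h6 => ?_⟩⟩
      · rw [h5 L' hL' h6]
        exact he
      · have : L' = L := by rw [← loop_eq hL' h6, loop_eq hL he]
        rw [this]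
        exact h4
  rw [sum_congr rfl h3]
  split_ifs
  · simp
  · simp

theorem partC (β : ℝ) {D : Finset V} (hD : CoConn D) (A : Finset V) :
    1 / 2 * |deriv (fun b => corr b D A) β| ≤ xorE β D (uniqueLen A) := by
  rw [(deriv_corr D A β).deriv]
  have h1 : 1 / 2 * |∑ e ∈ near D, (ex β D (fun M => sA A M * en e M) - ex β D (sA A) * ex β D (en e))| ≤
      ∑ e ∈ near D, xorP β D (GoodE A e) := by
    calc _ ≤ 1 / 2 * ∑ e ∈ near D, |ex β D (fun M => sA A M * en e M) - ex β D (sA A) * ex β D (en e)| :=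
          mul_le_mul_of_nonneg_left (abs_sum_le_sum_abs _ _) (by norm_num)
      _ = ∑ e ∈ near D, 1 / 2 * |ex β D (fun M => sA A M * en e M) - ex β D (sA A) * ex β D (en e)| := mul_sum _ _ _
      _ ≤ _ := sum_le_sum (fun e _ => cov_bound hD A e)
  refine h1.trans (le_of_eq ?_)
  unfold xorP xorE
  rw [← sum_div]
  congr 1
  rw [sum_comm]
  apply sum_congr rfl
  intro M hM
  rw [sum_comm]
  apply sum_congr rfl
  intro M' hM'
  rw [← mul_sum, sum_good (symmDiff_sub (mem_powerset.1 hM) (mem_powerset.1 hM')) A]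

theorem deriv_logZ (D : Finset V) (β : ℝ) : HasDerivAt (fun b => Real.log (ZZ b D))
    (∑ e ∈ near D, corr β D {e.1, tip e}) β := by
  have h2 : HasDerivAt (fun b => ZZ b D) (∑ M ∈ D.powerset, wt β D M * ∑ e ∈ near D, en e M) β := by
    unfold ZZ
    apply HasDerivAt.fun_sum
    intro M _
    exact deriv_wt D M β
  have h3 := h2.log (ZZ_pos β D).ne'
  have h4 : (∑ e ∈ near D, corr β D {e.1, tip e}) =
      (∑ M ∈ D.powerset, wt β D M * ∑ e ∈ near D, en e M) / ZZ β D := by
    unfold corr
    rw [← sum_div]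
    congr 1
    rw [sum_comm]
    apply sum_congr rfl
    intro M _
    rw [mul_sum]
    apply sum_congr rfl
    intro e _
    rw [prod_pair (tip_ne e)]
    rfl
  rw [h4]
  exact h3

theorem sum_uniqueLen {D X : Finset V} (hX : X ⊆ D) :
    ∑ e ∈ near D, uniqueLen {e.1, tip e} X = ∑ L ∈ loops X, (L.card : ℝ) ^ 2 := by
  have h0 : ∀ e, uniqueLen {e.1, tip e} X = if e ∈ contour X then ((loopOf X e).card : ℝ) else 0 := by
    intro e
    unfold uniqueLen
    by_cases he : e ∈ contour X
    · rw [if_pos he]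
      have h1 : ∀ L ∈ loops X, (if OddFor {e.1, tip e} L ∧ ∀ L' ∈ loops X, OddFor {e.1, tip e} L' → L' = L
          then (L.card : ℝ) else 0) = if L = loopOf X e then (L.card : ℝ) else 0 := by
        intro L hL
        apply if_congr _ rfl rfl
        constructor
        · rintro ⟨h2, -⟩
          exact (loop_eq hL ((odd_pair hL e).1 h2)).symm
        · intro h2
          rw [h2]
          refine ⟨(odd_pair (loop_self he).1 e).2 (loop_self he).2, fun L' hL' h3 => ?_⟩
          exact (loop_eq hL' ((odd_pair hL' e).1 h3)).symm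
      rw [sum_congr rfl h1, sum_ite_eq' (loops X) (loopOf X e) (fun L => (L.card : ℝ)), if_pos (loop_self he).1]
    · rw [if_neg he]
      apply sum_eq_zero
      intro L hL
      rw [if_neg]
      rintro ⟨h2, -⟩
      exact he (loop_sub hL ((odd_pair hL e).1 h2))
  rw [sum_congr rfl (fun e _ => h0 e)]
  have h1 : ∑ e ∈ near D, (if e ∈ contour X then ((loopOf X e).card : ℝ) else 0) =
      ∑ e ∈ contour X, ((loopOf X e).card : ℝ) := by
    rw [← sum_filter]
    apply sum_congr _ (fun _ _ => rfl)
    ext e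
    rw [mem_filter, mem_near]
    constructor
    · exact fun h => h.2
    · intro he
      refine ⟨?_, he⟩
      have h2 := mem_contour.1 he
      by_contra h3
      push Not at h3
      exact h2 ⟨fun h => absurd (hX h) h3.1, fun h => absurd (hX h) h3.2⟩
  rw [h1, ← sum_fiberwise_of_maps_to (fun e he => (loop_self he).1) _]
  apply sum_congr rfl
  intro L hL
  have h2 : (contour X).filter (fun e => loopOf X e = L) = L := by
    ext e
    rw [mem_filter]
    constructor
    · rintro ⟨h3, h4⟩
      rw [← h4]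
      exact (loop_self h3).2
    · intro h
      exact ⟨loop_sub hL h, loop_eq hL h⟩
  rw [h2, sum_congr rfl (fun e he => by rw [loop_eq hL he]), sum_const, nsmul_eq_mul]
  ring

theorem partC2 (β : ℝ) {D : Finset V} (hD : CoConn D) :
    1 / 2 * deriv (deriv (fun b => Real.log (ZZ b D))) β ≤ xorE β D (fun X => ∑ L ∈ loops X, (L.card : ℝ) ^ 2) := by
  have h1 : deriv (fun b => Real.log (ZZ b D)) = fun b => ∑ e ∈ near D, corr b D {e.1, tip e} := by
    funext b
    exact (deriv_logZ D b).deriv
  have h2 : deriv (fun b => ∑ e ∈ near D, corr b D {e.1, tip e}) β =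
      ∑ e ∈ near D, deriv (fun b => corr b D {e.1, tip e}) β := by
    apply HasDerivAt.deriv
    apply HasDerivAt.fun_sum
    intro e _
    exact (deriv_corr D {e.1, tip e} β).differentiableAt.hasDerivAt
  rw [h1, h2, mul_sum]
  have h3 : ∑ e ∈ near D, 1 / 2 * deriv (fun b => corr b D {e.1, tip e}) β ≤
      ∑ e ∈ near D, xorE β D (uniqueLen {e.1, tip e}) := by
    apply sum_le_sum
    intro e _
    refine le_trans ?_ (partC β hD {e.1, tip e})
    exact mul_le_mul_of_nonneg_left (le_abs_self _) (by norm_num)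
  refine h3.trans (le_of_eq ?_)
  unfold xorE
  rw [← sum_div]
  congr 1
  rw [sum_comm]
  apply sum_congr rfl
  intro M hM
  rw [sum_comm]
  apply sum_congr rfl
  intro M' hM'
  rw [← mul_sum, sum_uniqueLen (symmDiff_sub (mem_powerset.1 hM) (mem_powerset.1 hM'))]

end XorIsing
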