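import Pool.Agent.Work.MP_bda6fa_XOR.Defs
set_option autoImplicit false

/-! Parity lemmas for XOR-Ising loops. -/

namespace XorIsing
open scoped Classical
open Finset

theorem mem_near {D : Finset V} {e : Edge} : e ∈ near D ↔ e.1 ∈ D ∨ tip e ∈ D := by
  obtain ⟨v, k⟩ := e
  simp only [near, mem_biUnion, mem_univ, true_and, mem_union, mem_image, tip]
  constructor
  · rintro ⟨k', ⟨w, hw, he⟩ | ⟨w, hw, he⟩⟩
    · obtain ⟨rfl, rfl⟩ := Prod.mk.inj he
      exact Or.inl hw
    · obtain ⟨rfl, rfl⟩ := Prod.mk.inj he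
      right
      simpa using hw
  · rintro (h | h)
    · exact ⟨k, Or.inl ⟨v, h, rfl⟩⟩
    · exact ⟨k, Or.inr ⟨v + dir k, h, by simp⟩⟩

theorem mem_contour {X : Finset V} {e : Edge} : e ∈ contour X ↔ ¬ (e.1 ∈ X ↔ tip e ∈ X) := by
  rw [contour, mem_filter, mem_near]
  tauto

/-- indicator in ZMod 2 -/
noncomputable def ind (X : Finset V) (v : V) : ZMod 2 := if v ∈ X then 1 else 0
/-- indicator of an edge set -/
noncomputable def chi (F : Finset Edge) (e : Edge) : ZMod 2 := if e ∈ F then 1 else 0
/-- parity of the ray -/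
noncomputable def rp (F : Finset Edge) (x : V) : ZMod 2 := ((ray F x).card : ZMod 2)

theorem z2 (a : ZMod 2) : a + a = 0 := by
  revert a
  decide

theorem z2ne {a : ZMod 2} : a ≠ 0 ↔ a = 1 := by
  revert a
  decide

theorem surrounds_iff (F : Finset Edge) (x : V) : Surrounds F x ↔ rp F x = 1 := by
  rw [Surrounds, rp]
  exact (ZMod.natCast_eq_one_iff_odd).symm

theorem not_surrounds_iff (F : Finset Edge) (x : V) : ¬ Surrounds F x ↔ rp F x = 0 := by
  rw [surrounds_iff]
  constructor
  · intro h
    by_contra h0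
    exact h (z2ne.1 h0)
  · intro h h1
    rw [h] at h1
    exact absurd h1 (by decide)

theorem chi_contour (X : Finset V) (e : Edge) : chi (contour X) e = ind X e.1 + ind X (tip e) := by
  unfold chi ind
  rw [if_congr mem_contour rfl rfl]
  by_cases h1 : e.1 ∈ X <;> by_cases h2 : tip e ∈ X <;> simp [h1, h2]
  decide

theorem rp_step0 (F : Finset Edge) (x : V) : rp F x = chi F (x, 0) + rp F (x + (1, 0)) := by
  have h1 : ray F x = (if (x, (0 : Fin 3)) ∈ F then {(x, (0 : Fin 3))} else ∅) ∪ ray F (x + (1, 0)) := by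
    ext ⟨⟨i, j⟩, k⟩
    obtain ⟨a, b⟩ := x
    by_cases hF : ((a, b), (0 : Fin 3)) ∈ F
    · rw [if_pos hF]
      simp only [ray, mem_filter, mem_union, mem_singleton, Prod.mk.injEq, Prod.mk_add_mk]
      constructor
      · rintro ⟨h1, h2, h3, h4⟩
        rcases eq_or_lt_of_le h4 with h5 | h5
        · left
          exact ⟨⟨h5.symm, h3⟩, h2⟩
        · right
          exact ⟨h1, h2, by omega, by omega⟩
      · rintro (⟨⟨h1, h2⟩, h3⟩ | ⟨h1, h2, h3, h4⟩)
        · subst h1 h2 h3
          exact ⟨hF, rfl, rfl, le_rfl⟩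
        · exact ⟨h1, h2, by omega, by omega⟩
    · rw [if_neg hF]
      simp only [ray, mem_filter, mem_union, notMem_empty, false_or, Prod.mk_add_mk]
      constructor
      · rintro ⟨h1, h2, h3, h4⟩
        rcases eq_or_lt_of_le h4 with h5 | h5
        · exfalso
          apply hF
          subst h2
          rw [h5, ← h3]
          exact h1
        · exact ⟨h1, h2, by omega, by omega⟩
      · rintro ⟨h1, h2, h3, h4⟩
        exact ⟨h1, h2, by omega, by omega⟩
  have hdisj : Disjoint (if (x, (0 : Fin 3)) ∈ F then ({(x, (0 : Fin 3))} : Finset Edge) else ∅)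
      (ray F (x + (1, 0))) := by
    rw [Finset.disjoint_left]
    intro e he he'
    split_ifs at he
    · rw [mem_singleton] at he
      subst he
      have := (mem_filter.1 he').2.2.2
      simp at this
    · exact absurd he (notMem_empty _)
  unfold rp chi
  rw [h1, card_union_of_disjoint hdisj, Nat.cast_add]
  congr 1
  split_ifs <;> simp

/-- the right end -/
theorem exists_bound (F : Finset Edge) : ∃ N : ℤ, ∀ e ∈ F, e.1.1 < N := by
  refine ⟨(∑ e ∈ F, |e.1.1|) + 1, fun e he => ?_⟩
  have h1 : |e.1.1| ≤ ∑ e ∈ F, |e.1.1| := Finset.single_le_sum (f := fun e : Edge => |e.1.1|)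
    (fun _ _ => abs_nonneg _) he
  have h2 := le_abs_self e.1.1
  omega

theorem rp_far {F : Finset Edge} {N : ℤ} (hN : ∀ e ∈ F, e.1.1 < N) (x : V) (hx : N ≤ x.1) : rp F x = 0 := by
  have : ray F x = ∅ := by
    rw [Finset.eq_empty_iff_forall_notMem]
    intro e he
    have h1 := mem_filter.1 he
    have h2 := hN e h1.1
    omega
  rw [rp, this]
  simp

theorem chi_far {F : Finset Edge} {N : ℤ} (hN : ∀ e ∈ F, e.1.1 < N) (e : Edge) (he : N ≤ e.1.1) : chi F e = 0 := by
  rw [chi, if_neg]
  intro h
  have := hN e h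
  omega

/-- an even number of edges in every triangle -/
def EvenTri (F : Finset Edge) : Prop := ∀ v : V,
  chi F (v, 0) + chi F (v, 1) + chi F (v + (0, 1), 2) = 0 ∧
  chi F (v + (0, 1), 2) + chi F (v + (0, 1), 0) + chi F (v + (1, 0), 1) = 0

theorem rp_step1 {F : Finset Edge} (hF : EvenTri F) (x : V) : rp F x + rp F (x + (0, 1)) = chi F (x, 1) := by
  obtain ⟨N, hN⟩ := exists_bound F
  have key : ∀ n : ℕ, ∀ x : V, N ≤ x.1 + n → rp F x + rp F (x + (0, 1)) = chi F (x, 1) := by
    intro n
    induction n with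
    | zero =>
      intro x hx
      have hx' : N ≤ x.1 := by simpa using hx
      rw [rp_far hN x hx', rp_far hN (x + (0, 1)) (by simpa using hx'), chi_far hN (x, 1) hx']
      rfl
    | succ n ih =>
      intro x hx
      have h1 := ih (x + (1, 0)) (by
        have : (x + (1, 0) : V).1 = x.1 + 1 := rfl
        rw [this]
        push_cast at hx
        omega)
      have h2 := rp_step0 F x
      have h3 := rp_step0 F (x + (0, 1))
      have h4 : x + (0, 1) + (1, 0) = x + (1, 0) + ((0, 1) : V) := by abel
      rw [h4] at h3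
      obtain ⟨h5, h6⟩ := hF x
      rw [h2, h3]
      have h7 := z2 (chi F (x + (0, 1), 2))
      have h8 := z2 (chi F (x + (1, 0), 1))
      have h9 := z2 (chi F (x, 1))
      linear_combination h1 + h5 + h6 - h7 - h9
  exact key (N - x.1).toNat x (by omega)

theorem rp_step {F : Finset Edge} (hF : EvenTri F) (e : Edge) : rp F e.1 + rp F (tip e) = chi F e := by
  obtain ⟨x, k⟩ := e
  fin_cases k
  · show rp F x + rp F (x + (1, 0)) = chi F (x, 0)
    rw [rp_step0 F x]
    linear_combination z2 (rp F (x + (1, 0)))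
  · exact rp_step1 hF x
  · show rp F x + rp F (x + (1, -1)) = chi F (x, 2)
    have h1 := rp_step1 hF (x + (0, -1))
    have h2 := rp_step0 F (x + (0, -1))
    have h3 := (hF (x + (0, -1))).1
    have h4 : x + (0, -1) + (0, 1) = x := by
      ext <;> simp
    have h5 : x + (0, -1) + (1, 0) = x + ((1, -1) : V) := by
      ext <;> simp
    rw [h4] at h1 h3
    rw [h5] at h2
    have h9 := z2 (chi F (x + (0, -1), 1))
    linear_combination h1 - h2 - h3 + h9


/-! ### loops -/

theorem chi_tri_contour (X : Finset V) : EvenTri (contour X) := by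
  intro v
  have e1 : tip (v, 0) = v + (1, 0) := rfl
  have e2 : tip (v, 1) = v + (0, 1) := rfl
  have e3 : tip (v + (0, 1), 2) = v + (1, 0) := by
    show v + (0, 1) + (1, -1) = v + (1, 0)
    ext <;> simp
  have e4 : tip (v + (0, 1), 0) = v + (1, 1) := by
    show v + (0, 1) + (1, 0) = v + (1, 1)
    ext <;> simp
  have e5 : tip (v + (1, 0), 1) = v + (1, 1) := by
    show v + (1, 0) + (0, 1) = v + (1, 1)
    ext <;> simp
  simp only [chi_contour, e1, e2, e3, e4, e5]
  have h1 := z2 (ind X v)
  have h2 := z2 (ind X (v + (1, 0)))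
  have h3 := z2 (ind X (v + (0, 1)))
  have h4 := z2 (ind X (v + (1, 1)))
  constructor
  · linear_combination h1 + h2 + h3
  · linear_combination h2 + h3 + h4

/-- the relation whose components are the loops -/
def LR (X : Finset V) (a b : Edge) : Prop := b ∈ contour X ∧ Touch a b

theorem touch_symm {e f : Edge} (h : Touch e f) : Touch f e := by
  obtain ⟨t, h1, h2⟩ := h
  exact ⟨t, h2, h1⟩

theorem LR_symm {X : Finset V} {e f : Edge} (he : e ∈ contour X)
    (h : Relation.ReflTransGen (LR X) e f) : Relation.ReflTransGen (LR X) f e := by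
  induction h with
  | refl => exact Relation.ReflTransGen.refl
  | @tail b c hb hc ih =>
    have hbX : b ∈ contour X := by
      rcases Relation.ReflTransGen.cases_tail hb with h1 | ⟨d, -, h2⟩
      · rw [h1]
        exact he
      · exact h2.1
    exact Relation.ReflTransGen.head ⟨hbX, touch_symm hc.2⟩ ih

theorem mem_loopOf {X : Finset V} {e f : Edge} :
    f ∈ loopOf X e ↔ f ∈ contour X ∧ Relation.ReflTransGen (LR X) e f := by
  rw [loopOf, mem_filter]
  rfl

theorem loop_sub {X : Finset V} {L : Finset Edge} (hL : L ∈ loops X) {e : Edge} (he : e ∈ L) : e ∈ contour X := by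
  obtain ⟨f, -, rfl⟩ := mem_image.1 hL
  exact (mem_loopOf.1 he).1

theorem loop_closed {X : Finset V} {L : Finset Edge} (hL : L ∈ loops X) {e f : Edge} (he : e ∈ L)
    (hf : f ∈ contour X) (h : Touch e f) : f ∈ L := by
  obtain ⟨g, -, rfl⟩ := mem_image.1 hL
  rw [mem_loopOf] at he ⊢
  exact ⟨hf, he.2.tail ⟨hf, h⟩⟩

theorem loop_eq {X : Finset V} {L : Finset Edge} (hL : L ∈ loops X) {e : Edge} (he : e ∈ L) : loopOf X e = L := by
  obtain ⟨g, hg, rfl⟩ := mem_image.1 hL
  obtain ⟨heX, hge⟩ := mem_loopOf.1 he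
  ext f
  rw [mem_loopOf, mem_loopOf]
  constructor
  · rintro ⟨h1, h2⟩
    exact ⟨h1, hge.trans h2⟩
  · rintro ⟨h1, h2⟩
    exact ⟨h1, (LR_symm hg hge).trans h2⟩

theorem loop_self {X : Finset V} {e : Edge} (he : e ∈ contour X) : loopOf X e ∈ loops X ∧ e ∈ loopOf X e :=
  ⟨mem_image_of_mem _ he, mem_loopOf.2 ⟨he, Relation.ReflTransGen.refl⟩⟩

theorem mem_tri_up (v : V) (e : Edge) :
    e ∈ tri (v, true) ↔ e = (v, 0) ∨ e = (v, 1) ∨ e = (v + (0, 1), 2) := by
  simp [tri]

theorem mem_tri_down (v : V) (e : Edge) :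
    e ∈ tri (v, false) ↔ e = (v + (0, 1), 2) ∨ e = (v + (0, 1), 0) ∨ e = (v + (1, 0), 1) := by
  simp [tri]

theorem evenTri_loop {X : Finset V} {L : Finset Edge} (hL : L ∈ loops X) : EvenTri L := by
  have key : ∀ t : V × Bool, (∀ e ∈ tri t, chi L e = 0) ∨ (∀ e ∈ tri t, chi L e = chi (contour X) e) := by
    intro t
    by_cases h : ∃ e ∈ tri t, e ∈ L
    · right
      obtain ⟨e, het, heL⟩ := h
      intro f hf
      unfold chi
      refine if_congr ⟨fun h => loop_sub hL h, fun h => loop_closed hL heL h ⟨t, het, hf⟩⟩ rfl rfl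
    · left
      intro e he
      rw [chi, if_neg]
      exact fun hL' => h ⟨e, he, hL'⟩
  intro v
  obtain ⟨h1, h2⟩ := chi_tri_contour X v
  constructor
  · rcases key (v, true) with h | h
    · rw [h _ ((mem_tri_up v _).2 (Or.inl rfl)), h _ ((mem_tri_up v _).2 (Or.inr (Or.inl rfl))),
        h _ ((mem_tri_up v _).2 (Or.inr (Or.inr rfl)))]
      rfl
    · rw [h _ ((mem_tri_up v _).2 (Or.inl rfl)), h _ ((mem_tri_up v _).2 (Or.inr (Or.inl rfl))),
        h _ ((mem_tri_up v _).2 (Or.inr (Or.inr rfl)))]
      exact h1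
  · rcases key (v, false) with h | h
    · rw [h _ ((mem_tri_down v _).2 (Or.inl rfl)), h _ ((mem_tri_down v _).2 (Or.inr (Or.inl rfl))),
        h _ ((mem_tri_down v _).2 (Or.inr (Or.inr rfl)))]
      rfl
    · rw [h _ ((mem_tri_down v _).2 (Or.inl rfl)), h _ ((mem_tri_down v _).2 (Or.inr (Or.inl rfl))),
        h _ ((mem_tri_down v _).2 (Or.inr (Or.inr rfl)))]
      exact h2

/-- the surround parity changes exactly along the loop -/
theorem loop_step {X : Finset V} {L : Finset Edge} (hL : L ∈ loops X) (e : Edge) :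
    (Surrounds L e.1 ↔ Surrounds L (tip e)) ↔ e ∉ L := by
  have h := rp_step (evenTri_loop hL) e
  rw [surrounds_iff, surrounds_iff]
  unfold chi at h
  by_cases he : e ∈ L
  · rw [if_pos he] at h
    simp only [he, not_true_eq_false, iff_false]
    intro hcon
    by_cases h1 : rp L e.1 = 1
    · rw [h1, hcon.1 h1] at h
      exact absurd h (by decide)
    · have h2 : rp L (tip e) ≠ 1 := fun h3 => h1 (hcon.2 h3)
      have h3 : rp L e.1 = 0 := by
        by_contra h4
        exact h1 (z2ne.1 h4)
      have h4 : rp L (tip e) = 0 := by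
        by_contra h5
        exact h2 (z2ne.1 h5)
      rw [h3, h4] at h
      exact absurd h (by decide)
  · rw [if_neg he] at h
    simp only [he, not_false_eq_true, iff_true]
    have h1 : rp L e.1 = rp L (tip e) := by
      have := z2 (rp L (tip e))
      linear_combination h - this
    rw [h1]

/-- the contour parity is the indicator of the minus set -/
theorem rp_contour (X : Finset V) (x : V) : rp (contour X) x = ind X x := by
  obtain ⟨N, hN⟩ := exists_bound (contour X)
  have hN2 : ∃ N2 : ℤ, ∀ v ∈ X, v.1 < N2 := by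
    obtain ⟨N2, hN2⟩ := exists_bound (X.image (fun v => ((v, 0) : Edge)))
    exact ⟨N2, fun v hv => hN2 _ (mem_image_of_mem _ hv)⟩
  obtain ⟨N2, hN2⟩ := hN2
  have key : ∀ n : ℕ, ∀ x : V, max N N2 ≤ x.1 + n → rp (contour X) x = ind X x := by
    intro n
    induction n with
    | zero =>
      intro x hx
      have hx1 : N ≤ x.1 := by
        have := le_max_left N N2
        push_cast at hx
        omega
      have hx2 : N2 ≤ x.1 := by
        have := le_max_right N N2
        push_cast at hx
        omega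
      rw [rp_far hN x hx1, ind, if_neg]
      intro h
      have := hN2 x h
      omega
    | succ n ih =>
      intro x hx
      have h1 := ih (x + (1, 0)) (by
        have : (x + (1, 0) : V).1 = x.1 + 1 := rfl
        rw [this]
        push_cast at hx
        omega)
      rw [rp_step0, h1, chi_contour]
      show ind X x + ind X (x + (1, 0)) + ind X (x + (1, 0)) = ind X x
      linear_combination z2 (ind X (x + (1, 0)))
  exact key (max N N2 - x.1).toNat x (by omega)

theorem nloops_parity (X : Finset V) (x : V) : ((nloops X x : ℕ) : ZMod 2) = ind X x := by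
  have h1 : (ray (contour X) x).card = ∑ L ∈ loops X, (ray L x).card := by
    have h2 : ∀ e ∈ ray (contour X) x, loopOf X e ∈ loops X := fun e he => (loop_self (mem_filter.1 he).1).1
    rw [card_eq_sum_card_fiberwise h2]
    apply sum_congr rfl
    intro L hL
    congr 1
    ext e
    simp only [ray, mem_filter]
    constructor
    · rintro ⟨⟨h3, h4⟩, h5⟩
      refine ⟨?_, h4⟩
      rw [← h5]
      exact (loop_self h3).2
    · rintro ⟨h3, h4⟩
      exact ⟨⟨loop_sub hL h3, h4⟩, loop_eq hL h3⟩
  rw [← rp_contour, rp, h1, nloops, card_filter, Nat.cast_sum, Nat.cast_sum]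
  apply sum_congr rfl
  intro L _
  by_cases h : Surrounds L x
  · rw [if_pos h]
    rw [surrounds_iff] at h
    have h' : ((ray L x).card : ZMod 2) = 1 := h
    rw [h', Nat.cast_one]
  · rw [if_neg h]
    rw [not_surrounds_iff] at h
    have h' : ((ray L x).card : ZMod 2) = 0 := h
    rw [h', Nat.cast_zero]

theorem nloops_odd (X : Finset V) (x : V) : Odd (nloops X x) ↔ x ∈ X := by
  rw [← ZMod.natCast_eq_one_iff_odd, nloops_parity, ind]
  by_cases h : x ∈ X
  · simp [h]
  · simp [h]

/-- outside faces are not surrounded -/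
theorem not_surrounds_out {D X : Finset V} (hD : CoConn D) (hX : X ⊆ D) {L : Finset Edge} (hL : L ∈ loops X)
    {v : V} (hv : v ∉ D) : ¬ Surrounds L v := by
  obtain ⟨N, hN⟩ := exists_bound L
  obtain ⟨N2, hN2⟩ := exists_bound (D.image (fun v => ((v, 0) : Edge)))
  set w : V := (max N N2, 0) with hw
  have hwD : w ∉ D := by
    intro h
    have h1 := hN2 _ (mem_image_of_mem _ h)
    have h2 : ((w, (0 : Fin 3)) : Edge).1.1 = max N N2 := rfl
    rw [h2] at h1
    exact absurd h1 (not_lt.2 (le_max_right _ _))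
  have hw0 : ¬ Surrounds L w := by
    rw [not_surrounds_iff]
    exact rp_far hN w (le_max_left _ _)
  have hpath := hD w v hwD hv
  have key : ∀ u, Relation.ReflTransGen (fun a b => b ∉ D ∧ Adj a b) w u → ¬ Surrounds L u ∧ u ∉ D := by
    intro u hu
    induction hu with
    | refl => exact ⟨hw0, hwD⟩
    | @tail b c _ hbc ih =>
      refine ⟨?_, hbc.1⟩
      obtain ⟨k, hk | hk⟩ := hbc.2
      · have h1 := (loop_step hL (b, k)).2 (fun h => by
          have h2 := mem_contour.1 (loop_sub hL h)
          apply h2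
          have h3 : tip (b, k) = c := hk.symm
          rw [h3]
          exact ⟨fun h => absurd (hX h) ih.2, fun h => absurd (hX h) hbc.1⟩)
        have h3 : tip (b, k) = c := hk.symm
        rw [h3] at h1
        exact fun h => ih.1 (h1.2 h)
      · have h1 := (loop_step hL (c, k)).2 (fun h => by
          have h2 := mem_contour.1 (loop_sub hL h)
          apply h2
          have h3 : tip (c, k) = b := hk.symm
          rw [h3]
          exact ⟨fun h => absurd (hX h) hbc.1, fun h => absurd (hX h) ih.2⟩)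
        have h3 : tip (c, k) = b := hk.symm
        rw [h3] at h1
        exact fun h => ih.1 (h1.1 h)
  exact (key v hpath).1

end XorIsing
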